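import Mathlib
import Pool.Prelude.Def_F_cef2bd1b
set_option autoImplicit false
open N0a8789b9
namespace Pool.Agent.H274C

theorem add_identity {n k : ℕ}
    (step_rep : ∀ (P : Finset ℝ) (g : ℝ → ℝ), ∃ c : ℝ → ℝ, ∀ a ∈ P, ∀ b ∈ P, a ≤ b →
      g b - g a = ∑ t ∈ P, if a ≤ t ∧ t < b then c t else 0)
    (T : Fin k → Cube n) (hT : IsTiling T) (g : Fin n → ℝ → ℝ) :
    ∑ q, ∏ i, (g i ((T q).lower i + (T q).side) - g i ((T q).lower i))
      = ∏ i, (g i 1 - g i 0) := by
  classical
  obtain ⟨hin, huniq⟩ := hT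
  let P : Fin n → Finset ℝ := fun i =>
    ({0, 1} : Finset ℝ) ∪ (Finset.univ.image (fun q => (T q).lower i)) ∪
      (Finset.univ.image (fun q => (T q).lower i + (T q).side))
  have hP0 : ∀ i, (0 : ℝ) ∈ P i := fun i => by simp [P]
  have hP1 : ∀ i, (1 : ℝ) ∈ P i := fun i => by simp [P]
  have hPl : ∀ i q, (T q).lower i ∈ P i := fun i q => by
    simp only [P, Finset.mem_union, Finset.mem_image, Finset.mem_univ, true_and]
    exact Or.inl (Or.inr ⟨q, rfl⟩)
  have hPs : ∀ i q, (T q).lower i + (T q).side ∈ P i := fun i q => by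
    simp only [P, Finset.mem_union, Finset.mem_image, Finset.mem_univ, true_and]
    exact Or.inr ⟨q, rfl⟩
  choose c hc using fun i => step_rep (P i) (g i)
  have hL : ∀ q, ∏ i, (g i ((T q).lower i + (T q).side) - g i ((T q).lower i)) =
      ∑ t ∈ Fintype.piFinset P, if (T q).Mem t then ∏ i, c i (t i) else 0 := by
    intro q
    have h1 : ∀ i, g i ((T q).lower i + (T q).side) - g i ((T q).lower i) =
        ∑ t ∈ P i, if (T q).lower i ≤ t ∧ t < (T q).lower i + (T q).side then c i t else 0 :=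
      fun i => hc i _ (hPl i q) _ (hPs i q) (by linarith [(hin q).1])
    simp only [h1]
    rw [Finset.prod_univ_sum]
    refine Finset.sum_congr rfl fun t _ => ?_
    rw [Finset.prod_ite_zero]
    simp only [Finset.mem_univ, true_implies]
    exact if_congr Iff.rfl rfl rfl
  have hR : ∏ i, (g i 1 - g i 0) =
      ∑ t ∈ Fintype.piFinset P, if InUnit t then ∏ i, c i (t i) else 0 := by
    have h1 : ∀ i, g i 1 - g i 0 = ∑ t ∈ P i, if (0 : ℝ) ≤ t ∧ t < 1 then c i t else 0 :=
      fun i => hc i _ (hP0 i) _ (hP1 i) zero_le_one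
    simp only [h1]
    rw [Finset.prod_univ_sum]
    refine Finset.sum_congr rfl fun t _ => ?_
    rw [Finset.prod_ite_zero]
    simp only [Finset.mem_univ, true_implies]
    exact if_congr Iff.rfl rfl rfl
  rw [hR]
  simp only [hL]
  rw [Finset.sum_comm]
  refine Finset.sum_congr rfl fun t _ => ?_
  by_cases ht : InUnit t
  · rw [if_pos ht]
    obtain ⟨q, hq, hq'⟩ := huniq t ht
    rw [Finset.sum_eq_single q]
    · rw [if_pos hq]
    · intro b _ hb
      rw [if_neg]
      exact fun h => hb (hq' b h)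
    · intro h
      exact absurd (Finset.mem_univ q) h
  · rw [if_neg ht]
    refine Finset.sum_eq_zero fun q _ => ?_
    rw [if_neg]
    intro h
    apply ht
    intro j
    have h1 := h j
    have h2 := (hin q).2 j
    exact ⟨by linarith [h1.1, h2.1], by linarith [h1.2, h2.2]⟩


end Pool.Agent.H274C
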