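import Mathlib
import Pool.Prelude.Def_F_cef2bd1b
set_option autoImplicit false
open N0a8789b9
namespace Pool.Agent.H274C

/-- `T` is a decomposition of the box `∏ [0, D j)` into half-open cubes -/
def BoxTiling {n k : ℕ} (D : Fin n → ℝ) (T : Fin k → Cube n) : Prop :=
  (∀ q, 0 < (T q).side ∧ ∀ j, 0 ≤ (T q).lower j ∧ (T q).lower j + (T q).side ≤ D j) ∧
    ∀ x : Fin n → ℝ, (∀ j, 0 ≤ x j ∧ x j < D j) → ∃! q, (T q).Mem x

/-- Guillotine decompositions: `Guillotine a b L` says that the box `∏ [a j, b j)` is decomposed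
into the half-open cubes of the list `L` by successive straight cuts. -/
inductive Guillotine {n : ℕ} : (Fin n → ℝ) → (Fin n → ℝ) → List (Cube n) → Prop
  | cube (a : Fin n → ℝ) (s : ℝ) (hs : 0 < s) : Guillotine a (fun j => a j + s) [⟨a, s⟩]
  | cut (a b : Fin n → ℝ) (i : Fin n) (c : ℝ) (L₁ L₂ : List (Cube n)) (hac : a i < c)
      (hcb : c < b i) : Guillotine a (Function.update b i c) L₁ →
      Guillotine (Function.update a i c) b L₂ → Guillotine a b (L₁ ++ L₂)

end Pool.Agent.H274C
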