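import Mathlib
set_option autoImplicit false
namespace Pool.Agent.H274C

theorem N_aux {ι : Type} (S : Finset ι) (s : ι → ℝ) (hs : ∀ q ∈ S, 0 < s q) (M : ℝ) (hM0 : 0 < M)
    (hMex : ∃ q ∈ S, s q = M) (K : ℝ) (hK : 1 ≤ K) (m j : ℕ)
    (hcard : (S.card : ℝ) ≤ K ^ (m + j)) :
    ∑ q ∈ S, s q ^ m ≤ ((2 * K / M) ^ j + (K / M) ^ j) * ∑ q ∈ S, s q ^ (m + j) := by
  have hK0 : 0 < K := by linarith
  have h1 : ∀ q ∈ S, s q ^ m ≤ (2 * K / M) ^ j * s q ^ (m + j) + (M / (2 * K)) ^ m := by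
    intro q hq
    have hsq := hs q hq
    rcases le_total (M / (2 * K)) (s q) with h | h
    · have h2 : 1 ≤ s q * (2 * K / M) := by
        rw [div_le_iff₀ (by positivity)] at h
        rw [mul_div_assoc', le_div_iff₀ hM0]
        linarith
      have h3 : 1 ≤ (s q * (2 * K / M)) ^ j := one_le_pow₀ h2
      have h4 : s q ^ m ≤ s q ^ m * (s q * (2 * K / M)) ^ j :=
        le_mul_of_one_le_right (by positivity) h3
      have h5 : s q ^ m * (s q * (2 * K / M)) ^ j = (2 * K / M) ^ j * s q ^ (m + j) := by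
        rw [mul_pow, pow_add]; ring
      have h6 : 0 ≤ (M / (2 * K)) ^ m := by positivity
      linarith
    · have h2 : s q ^ m ≤ (M / (2 * K)) ^ m := pow_le_pow_left₀ hsq.le h m
      have h3 : 0 ≤ (2 * K / M) ^ j * s q ^ (m + j) := by positivity
      linarith
  have h2 : ∑ q ∈ S, s q ^ m ≤ (2 * K / M) ^ j * ∑ q ∈ S, s q ^ (m + j) +
      S.card * (M / (2 * K)) ^ m := by
    calc ∑ q ∈ S, s q ^ m ≤ ∑ q ∈ S, ((2 * K / M) ^ j * s q ^ (m + j) + (M / (2 * K)) ^ m) :=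
          Finset.sum_le_sum h1
      _ = _ := by
          rw [Finset.sum_add_distrib, ← Finset.mul_sum, Finset.sum_const, nsmul_eq_mul]
  have h3 : M ^ (m + j) ≤ ∑ q ∈ S, s q ^ (m + j) := by
    obtain ⟨q, hq, hqM⟩ := hMex
    rw [← hqM]
    exact Finset.single_le_sum (f := fun q => s q ^ (m + j)) (fun i hi => by
      have := hs i hi; positivity) hq
  have h4 : (S.card : ℝ) * (M / (2 * K)) ^ m ≤ (K / M) ^ j * ∑ q ∈ S, s q ^ (m + j) := by
    calc (S.card : ℝ) * (M / (2 * K)) ^ m ≤ K ^ (m + j) * (M / (2 * K)) ^ m := by gcongr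
      _ = K ^ j * (M / 2) ^ m := by
          rw [pow_add, div_pow, div_pow, mul_pow]
          field_simp
      _ ≤ K ^ j * M ^ m := by gcongr; linarith
      _ = (K / M) ^ j * M ^ (m + j) := by
          rw [div_pow, pow_add]
          field_simp
      _ ≤ _ := by gcongr
  rw [add_mul]
  linarith

theorem N_bounds {ι : Type} (S : Finset ι) (s : ι → ℝ) (hs : ∀ q ∈ S, 0 < s q) (M : ℝ)
    (hM : ∀ q ∈ S, s q ≤ M) (hMex : ∃ q ∈ S, s q = M) (K : ℝ) (hK : 1 ≤ K) (n : ℕ) (hn : 2 ≤ n)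
    (hcard : (S.card : ℝ) ≤ K ^ n) :
    ∑ q ∈ S, s q ^ (n - 1) ≤ 4 * K / M * ∑ q ∈ S, s q ^ n ∧
    ∑ q ∈ S, s q ^ (n - 2) ≤ 8 * K ^ 2 / M ^ 2 * ∑ q ∈ S, s q ^ n := by
  have hM0 : 0 < M := by
    obtain ⟨q, hq, h⟩ := hMex
    rw [← h]; exact hs q hq
  have hK0 : 0 < K := by linarith
  have hsum : 0 ≤ ∑ q ∈ S, s q ^ n := Finset.sum_nonneg fun q hq => by
    have := hs q hq; positivity
  constructor
  · have h := N_aux S s hs M hM0 hMex K hK (n - 1) 1 (by
      have : n - 1 + 1 = n := by omega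
      rw [this]; exact hcard)
    have e : n - 1 + 1 = n := by omega
    rw [e, pow_one, pow_one] at h
    refine h.trans (mul_le_mul_of_nonneg_right ?_ hsum)
    rw [← add_div]
    gcongr
    linarith
  · have h := N_aux S s hs M hM0 hMex K hK (n - 2) 2 (by
      have : n - 2 + 2 = n := by omega
      rw [this]; exact hcard)
    have e : n - 2 + 2 = n := by omega
    rw [e] at h
    refine h.trans (mul_le_mul_of_nonneg_right ?_ hsum)
    rw [div_pow, div_pow, ← add_div]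
    gcongr
    nlinarith [sq_nonneg K]

/-- combination of the Loomis-Whitney bound with AM-GM and the count -/
theorem lower_bound {n : ℕ} (hn : 2 ≤ n) (N : ℝ) (hN : 0 < N) (m : Fin n → ℝ)
    (hm : ∀ i, 0 ≤ m i) (hLW : N ^ (n - 1) ≤ ∏ i, m i) (R : ℝ) (hR : 0 < R) (hNR : N ≤ R ^ n) :
    n * N / R ≤ ∑ i, m i := by
  by_contra hcon
  push Not at hcon
  have hn0 : (0 : ℝ) < n := by exact_mod_cast (by omega : 0 < n)
  set A : ℝ := (∑ i, m i) / n with hA
  have hA0 : 0 ≤ A := div_nonneg (Finset.sum_nonneg fun i _ => hm i) hn0.le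
  have hAN : A < N / R := by
    rw [hA, div_lt_iff₀ hn0]
    calc ∑ i, m i < n * N / R := hcon
      _ = N / R * n := by ring
  have hamgm : ∏ i, m i ≤ A ^ n := by
    have h1 := Real.geom_mean_le_arith_mean_weighted Finset.univ (fun _ : Fin n => (1 : ℝ) / n) m
      (fun i _ => by positivity) (by simp; field_simp) (fun i _ => hm i)
    have h2 : ∑ i, (1 : ℝ) / n * m i = A := by
      rw [← Finset.mul_sum, hA]; ring
    rw [h2] at h1
    have h3 : (∏ i, m i ^ ((1 : ℝ) / n)) ^ n = ∏ i, m i := by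
      rw [← Finset.prod_pow]
      refine Finset.prod_congr rfl fun i _ => ?_
      rw [← Real.rpow_natCast, ← Real.rpow_mul (hm i)]
      rw [one_div, inv_mul_cancel₀ hn0.ne', Real.rpow_one]
    rw [← h3]
    exact pow_le_pow_left₀ (Finset.prod_nonneg fun i _ => Real.rpow_nonneg (hm i) _) h1 n
  have h4 : A ^ n < (N / R) ^ n := pow_lt_pow_left₀ hAN hA0 (by omega)
  have h5 : (N / R) ^ n ≤ N ^ (n - 1) := by
    rw [div_pow, div_le_iff₀ (by positivity)]
    calc N ^ n = N ^ (n - 1) * N := by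
          rw [← pow_succ]; congr 1; omega
      _ ≤ N ^ (n - 1) * R ^ n := by gcongr
  linarith

end Pool.Agent.H274C
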