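import Mathlib
import Pool.Prelude.Def_F_cef2bd1b
set_option autoImplicit false
open N0a8789b9 Classical
namespace Pool.Agent.H274C

/-- signed class indicator of the interval `[lower i, lower i + side)` at the class `c` -/
noncomputable def uu {n : ℕ} (H : AddSubgroup ℝ) (Q : Cube n) (c : ℝ ⧸ H) (i : Fin n) : ℝ :=
  (if (QuotientAddGroup.mk' H (Q.lower i) + QuotientAddGroup.mk' H Q.side) = c then 1 else 0)
    - (if QuotientAddGroup.mk' H (Q.lower i) = c then 1 else 0)

theorem sm_uu {n : ℕ} (H : AddSubgroup ℝ) (Q : Cube n) (c : ℝ ⧸ H) (i : Fin n) :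
    uu H Q c i = (fun z : ℝ => if (QuotientAddGroup.mk' H z) = c then (1 : ℝ) else 0) (Q.lower i + Q.side)
      - (fun z : ℝ => if (QuotientAddGroup.mk' H z) = c then (1 : ℝ) else 0) (Q.lower i) := by
  simp only [uu, map_add]

theorem sm_sq {n : ℕ} (H : AddSubgroup ℝ) (Q : Cube n) (c : ℝ ⧸ H) (i : Fin n) :
    uu H Q c i ^ 2 ≤ (if (QuotientAddGroup.mk' H (Q.lower i) + QuotientAddGroup.mk' H Q.side) = c then 1 else 0)
    + (if QuotientAddGroup.mk' H (Q.lower i) = c then 1 else 0) := by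
  unfold uu
  split_ifs <;> norm_num

theorem sm_zero {n : ℕ} (H : AddSubgroup ℝ) (Q : Cube n) (c : ℝ ⧸ H) (i : Fin n)
    (h : Q.side ∈ H) : uu H Q c i = 0 := by
  have h1 : QuotientAddGroup.mk' H Q.side = 0 := by
    simpa using h
  unfold uu
  rw [h1, add_zero, sub_self]

theorem sm_prod {n : ℕ} (hn : 2 ≤ n) (i j : Fin n) (hij : i ≠ j) (a : Fin n → ℝ) (s : ℝ)
    (ha : ∀ l, l ≠ i → l ≠ j → a l = s) : ∏ l, a l = s ^ (n - 2) * (a i * a j) := by
  rw [← Finset.mul_prod_erase Finset.univ a (Finset.mem_univ i),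
    ← Finset.mul_prod_erase (Finset.univ.erase i) a
      (Finset.mem_erase.mpr ⟨hij.symm, Finset.mem_univ j⟩)]
  have h1 : ∏ l ∈ (Finset.univ.erase i).erase j, a l = ∏ l ∈ (Finset.univ.erase i).erase j, s := by
    refine Finset.prod_congr rfl fun l hl => ?_
    rw [Finset.mem_erase, Finset.mem_erase] at hl
    exact ha l hl.2.1 hl.1
  have h2 : ((Finset.univ.erase i).erase j : Finset (Fin n)).card = n - 2 := by
    rw [Finset.card_erase_of_mem (Finset.mem_erase.mpr ⟨hij.symm, Finset.mem_univ j⟩),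
      Finset.card_erase_of_mem (Finset.mem_univ i), Finset.card_univ, Fintype.card_fin]
    omega
  rw [h1, Finset.prod_const, h2]
  ring

theorem sm_cross {n k : ℕ} (hn : 2 ≤ n) (T : Fin k → Cube n)
    (add_identity : ∀ g : Fin n → ℝ → ℝ,
      ∑ q, ∏ i, (g i ((T q).lower i + (T q).side) - g i ((T q).lower i))
        = ∏ i, (g i 1 - g i 0))
    (H : AddSubgroup ℝ) (h1 : (1 : ℝ) ∈ H) (c : ℝ ⧸ H) (i j : Fin n) (hij : i ≠ j) :
    ∑ q, (T q).side ^ (n - 2) * (uu H (T q) c i * uu H (T q) c j) = 0 := by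
  set gf : ℝ → ℝ := fun z : ℝ => if (QuotientAddGroup.mk' H z) = c then (1 : ℝ) else 0 with hgf
  have h2 := add_identity (fun l => if l = i ∨ l = j then gf else id)
  have h3 : ∀ q, ∏ l, ((fun l => if l = i ∨ l = j then gf else id) l ((T q).lower l + (T q).side) -
      (fun l => if l = i ∨ l = j then gf else id) l ((T q).lower l)) =
      (T q).side ^ (n - 2) * (uu H (T q) c i * uu H (T q) c j) := by
    intro q
    rw [sm_prod hn i j hij _ (T q).side]
    · simp only [true_or, or_true, if_true]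
      rw [sm_uu, sm_uu]
    · intro l hl1 hl2
      have h4 : ¬ (l = i ∨ l = j) := by tauto
      simp only [if_neg h4, id]
      ring
  rw [Finset.sum_congr rfl (fun q _ => (h3 q).symm), h2]
  apply Finset.prod_eq_zero (Finset.mem_univ i)
  simp only [true_or, if_true]
  have h5 : QuotientAddGroup.mk' H (1 : ℝ) = QuotientAddGroup.mk' H (0 : ℝ) := by
    rw [map_zero]
    simpa using h1
  simp only [hgf, h5, sub_self]

theorem second_moment {n k : ℕ} (hn : 2 ≤ n) (T : Fin k → Cube n) (hT : IsTiling T)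
    (add_identity : ∀ g : Fin n → ℝ → ℝ,
      ∑ q, ∏ i, (g i ((T q).lower i + (T q).side) - g i ((T q).lower i))
        = ∏ i, (g i 1 - g i 0))
    (H : AddSubgroup ℝ) (h1 : (1 : ℝ) ∈ H) (C : Finset (ℝ ⧸ H)) :
    ∑ q ∈ Finset.univ.filter (fun q => (T q).side ∉ H),
        (T q).side ^ (n - 2) * ∑ c ∈ C, (∑ i, uu H (T q) c i) ^ 2
      ≤ 2 * n * ∑ q ∈ Finset.univ.filter (fun q => (T q).side ∉ H), (T q).side ^ (n - 2) := by
  have hpos : ∀ q, 0 ≤ (T q).side ^ (n - 2) := fun q => pow_nonneg (hT.1 q).1.le _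
  have hres : ∀ F : Fin k → ℝ, (∀ q, (T q).side ∈ H → F q = 0) →
      ∑ q ∈ Finset.univ.filter (fun q => (T q).side ∉ H), F q = ∑ q, F q := by
    intro F hF
    refine Finset.sum_subset (Finset.filter_subset _ _) ?_
    intro q _ hq
    apply hF
    by_contra hcon
    exact hq (Finset.mem_filter.mpr ⟨Finset.mem_univ _, hcon⟩)
  have hc : ∀ c : ℝ ⧸ H,
      ∑ q ∈ Finset.univ.filter (fun q => (T q).side ∉ H),
        (T q).side ^ (n - 2) * (∑ i, uu H (T q) c i) ^ 2 =
      ∑ q ∈ Finset.univ.filter (fun q => (T q).side ∉ H),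
        (T q).side ^ (n - 2) * ∑ i, uu H (T q) c i ^ 2 := by
    intro c
    rw [hres _ (fun q hq => by simp [sm_zero H (T q) c _ hq]),
      hres _ (fun q hq => by simp [sm_zero H (T q) c _ hq])]
    have e1 : ∀ q, (T q).side ^ (n - 2) * (∑ i, uu H (T q) c i) ^ 2 =
        ∑ i, ∑ j, (T q).side ^ (n - 2) * (uu H (T q) c i * uu H (T q) c j) := by
      intro q
      rw [pow_two, Finset.sum_mul_sum, Finset.mul_sum]
      refine Finset.sum_congr rfl fun i _ => ?_
      rw [Finset.mul_sum]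
    have e2 : ∀ q, (T q).side ^ (n - 2) * ∑ i, uu H (T q) c i ^ 2 =
        ∑ i, (T q).side ^ (n - 2) * (uu H (T q) c i * uu H (T q) c i) := by
      intro q
      rw [Finset.mul_sum]
      refine Finset.sum_congr rfl fun i _ => ?_
      rw [pow_two]
    simp_rw [e1, e2]
    rw [Finset.sum_comm]
    rw [Finset.sum_comm (s := Finset.univ) (t := Finset.univ)
      (f := fun q i => (T q).side ^ (n - 2) * (uu H (T q) c i * uu H (T q) c i))]
    refine Finset.sum_congr rfl fun i _ => ?_
    rw [Finset.sum_comm]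
    rw [Finset.sum_eq_single i]
    · intro j _ hji
      exact sm_cross hn T add_identity H h1 c i j hji.symm
    · intro h
      exact absurd (Finset.mem_univ i) h
  calc ∑ q ∈ Finset.univ.filter (fun q => (T q).side ∉ H),
        (T q).side ^ (n - 2) * ∑ c ∈ C, (∑ i, uu H (T q) c i) ^ 2
      = ∑ c ∈ C, ∑ q ∈ Finset.univ.filter (fun q => (T q).side ∉ H),
        (T q).side ^ (n - 2) * (∑ i, uu H (T q) c i) ^ 2 := by
        rw [Finset.sum_comm]
        refine Finset.sum_congr rfl fun q _ => ?_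
        rw [Finset.mul_sum]
    _ = ∑ c ∈ C, ∑ q ∈ Finset.univ.filter (fun q => (T q).side ∉ H),
        (T q).side ^ (n - 2) * ∑ i, uu H (T q) c i ^ 2 :=
        Finset.sum_congr rfl fun c _ => hc c
    _ = ∑ q ∈ Finset.univ.filter (fun q => (T q).side ∉ H),
        (T q).side ^ (n - 2) * ∑ i, ∑ c ∈ C, uu H (T q) c i ^ 2 := by
        rw [Finset.sum_comm]
        refine Finset.sum_congr rfl fun q _ => ?_
        rw [← Finset.mul_sum, Finset.sum_comm]
    _ ≤ ∑ q ∈ Finset.univ.filter (fun q => (T q).side ∉ H),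
        (T q).side ^ (n - 2) * ∑ i : Fin n, 2 := by
        refine Finset.sum_le_sum fun q _ => mul_le_mul_of_nonneg_left ?_ (hpos q)
        refine Finset.sum_le_sum fun i _ => ?_
        refine (Finset.sum_le_sum fun c _ => sm_sq H (T q) c i).trans ?_
        rw [Finset.sum_add_distrib, Finset.sum_ite_eq, Finset.sum_ite_eq]
        split_ifs <;> norm_num
    _ = 2 * n * ∑ q ∈ Finset.univ.filter (fun q => (T q).side ∉ H), (T q).side ^ (n - 2) := by
        rw [Finset.mul_sum]
        refine Finset.sum_congr rfl fun q _ => ?_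
        simp only [Finset.sum_const, Finset.card_univ, Fintype.card_fin, nsmul_eq_mul]
        ring

end Pool.Agent.H274C
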