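import Mathlib
set_option autoImplicit false
namespace Pool.Agent.H274C
open MeasureTheory

theorem j31135_step {n : ℕ} (hn : 2 ≤ n) (f : Fin n → (Fin n → ℝ) → ENNReal)
    (hf : ∀ i, Measurable (f i)) (hi : ∀ i x t, f i (Function.update x i t) = f i x)
    (s : Finset (Fin n)) : ∀ x : Fin n → ℝ,
    lmarginal (fun _ => (volume : Measure ℝ)) s
      (fun y => ∏ i, f i y ^ ((1 : ℝ) / ((n : ℝ) - 1))) x ≤
      ∏ i, (lmarginal (fun _ => (volume : Measure ℝ)) (s.erase i) (f i) x)
        ^ ((1 : ℝ) / ((n : ℝ) - 1)) := by
  have hn1 : (0 : ℝ) < (n : ℝ) - 1 := by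
    have : (2 : ℝ) ≤ n := by exact_mod_cast hn
    linarith
  have hp0 : (0 : ℝ) ≤ (1 : ℝ) / ((n : ℝ) - 1) := by positivity
  generalize hp : (1 : ℝ) / ((n : ℝ) - 1) = p at hp0 ⊢
  have hF : Measurable (fun y => ∏ i, f i y ^ p) :=
    Finset.measurable_fun_prod _ fun i _ => (hf i).pow_const _
  induction s using Finset.induction_on with
  | empty =>
    intro x
    simp [lmarginal_empty]
  | insert j s hj ih =>
    intro x
    rw [lmarginal_insert _ hF hj]
    have h1 : ∀ t, lmarginal (fun _ => (volume : Measure ℝ)) s (f j) (Function.update x j t)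
        = lmarginal (fun _ => (volume : Measure ℝ)) s (f j) x := by
      intro t
      rw [lmarginal_update_of_notMem (hf j) hj]
      have h2 : (f j ∘ fun y => Function.update y j t) = f j := by
        funext y
        exact hi j y t
      rw [h2]
    have hmeas : ∀ i, Measurable fun t : ℝ =>
        lmarginal (fun _ => (volume : Measure ℝ)) (s.erase i) (f i) (Function.update x j t) :=
      fun i => ((hf i).lmarginal _).comp (measurable_update _)
    calc ∫⁻ t, lmarginal (fun _ => (volume : Measure ℝ)) s (fun y => ∏ i, f i y ^ p)
          (Function.update x j t)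
        ≤ ∫⁻ t, ∏ i, (lmarginal (fun _ => (volume : Measure ℝ)) (s.erase i) (f i)
          (Function.update x j t)) ^ p := lintegral_mono fun t => ih _
      _ = ∫⁻ t, (lmarginal (fun _ => (volume : Measure ℝ)) s (f j) x) ^ p *
          ∏ i ∈ Finset.univ.erase j, (lmarginal (fun _ => (volume : Measure ℝ)) (s.erase i) (f i)
          (Function.update x j t)) ^ p := by
            congr 1
            funext t
            rw [← Finset.mul_prod_erase Finset.univ _ (Finset.mem_univ j)]
            congr 1
            rw [Finset.erase_eq_of_notMem hj, h1 t]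
      _ = (lmarginal (fun _ => (volume : Measure ℝ)) s (f j) x) ^ p *
          ∫⁻ t, ∏ i ∈ Finset.univ.erase j, (lmarginal (fun _ => (volume : Measure ℝ)) (s.erase i)
            (f i) (Function.update x j t)) ^ p := by
            rw [lintegral_const_mul]
            exact Finset.measurable_fun_prod _ fun i _ => (hmeas i).pow_const _
      _ ≤ (lmarginal (fun _ => (volume : Measure ℝ)) s (f j) x) ^ p *
          ∏ i ∈ Finset.univ.erase j, (∫⁻ t, lmarginal (fun _ => (volume : Measure ℝ)) (s.erase i)
            (f i) (Function.update x j t)) ^ p := by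
            gcongr
            apply ENNReal.lintegral_prod_norm_pow_le
            · intro i _
              exact (hmeas i).aemeasurable
            · rw [Finset.sum_const, Finset.card_erase_of_mem (Finset.mem_univ j), Finset.card_univ,
                Fintype.card_fin, nsmul_eq_mul, ← hp, Nat.cast_sub (by omega), Nat.cast_one]
              field_simp
            · intro i _
              exact hp0
      _ = ∏ i, (lmarginal (fun _ => (volume : Measure ℝ)) ((insert j s).erase i) (f i) x) ^ p := by
            rw [← Finset.mul_prod_erase Finset.univ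
              (fun i => (lmarginal (fun _ => (volume : Measure ℝ)) ((insert j s).erase i) (f i) x)
                ^ p) (Finset.mem_univ j)]
            congr 1
            · rw [Finset.erase_insert hj]
            · apply Finset.prod_congr rfl
              intro i hij
              have hne : i ≠ j := Finset.ne_of_mem_erase hij
              rw [Finset.erase_insert_of_ne (Ne.symm hne),
                lmarginal_insert _ (hf i) (fun h => hj (Finset.mem_of_mem_erase h))]

/-- Loomis-Whitney / Finner inequality: `f i` does not depend on the coordinate `i`. -/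
theorem finner {n : ℕ} (hn : 2 ≤ n) (f : Fin n → (Fin n → ℝ) → ENNReal)
    (hf : ∀ i, Measurable (f i)) (hi : ∀ i x t, f i (Function.update x i t) = f i x) :
    ∫⁻ x, ∏ i, f i x ^ ((1 : ℝ) / ((n : ℝ) - 1)) ≤
      ∏ i, (lmarginal (fun _ => (volume : Measure ℝ)) (Finset.univ.erase i) (f i) 0)
        ^ ((1 : ℝ) / ((n : ℝ) - 1)) := by
  have h := j31135_step hn f hf hi Finset.univ 0
  rw [lmarginal_univ] at h
  exact h

end Pool.Agent.H274C
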