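import Mathlib
import Pool.Prelude.Def_F_cef2bd1b
import Pool.Agent.Helper274.CT.BoxDef
set_option autoImplicit false
open N0a8789b9
namespace Pool.Agent.H274C

theorem guillotine_H {N : ℕ} (H : AddSubgroup ℝ) (M : ℕ)
    (guillotine_tiling : ∀ {a b : Fin (N + 1) → ℝ} {L : List (Cube (N + 1))},
      Guillotine a b L →
      (∀ Q ∈ L, 0 < Q.side ∧ ∀ j, a j ≤ Q.lower j ∧ Q.lower j + Q.side ≤ b j) ∧
      (∀ x : Fin (N + 1) → ℝ, (∀ j, a j ≤ x j ∧ x j < b j) → ∃! i : Fin L.length, (L.get i).Mem x))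
    (guillotine_lt : ∀ {a b : Fin (N + 1) → ℝ} {L : List (Cube (N + 1))},
      Guillotine a b L → (∀ j, a j < b j) ∧ L ≠ [])
    (section_box : ∀ {k : ℕ} (a b : Fin (N + 1) → ℝ) (T : Fin k → Cube (N + 1))
      (_ : ∀ q, 0 < (T q).side ∧ ∀ j, a j ≤ (T q).lower j ∧ (T q).lower j + (T q).side ≤ b j)
      (_ : ∀ x : Fin (N + 1) → ℝ, (∀ j, a j ≤ x j ∧ x j < b j) → ∃! q, (T q).Mem x)
      (i : Fin (N + 1)) (c : ℝ) (_ : a i ≤ c ∧ c < b i),
      ∃ (k' : ℕ) (e : Fin k' → Fin k), k' ≤ k ∧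
        BoxTiling (fun j : Fin N => b (i.succAbove j) - a (i.succAbove j))
          (fun q => (⟨fun j => (T (e q)).lower (i.succAbove j) - a (i.succAbove j),
            (T (e q)).side⟩ : Cube N)) ∧
        ∀ q, ((T q).lower i ≤ c ∧ c < (T q).lower i + (T q).side) → ∃ q', e q' = q)
    (hsec : ∀ (k : ℕ) (D : Fin N → ℝ) (T : Fin k → Cube N), k ≤ M → (∀ j, 0 < D j) →
      BoxTiling D T → (∀ j, D j ∈ H) → ∀ q, (T q).side ∈ H)
    {a b : Fin (N + 1) → ℝ} {L : List (Cube (N + 1))} (h : Guillotine a b L)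
    (hL : L.length ≤ M) (hQ : ∃ Q ∈ L, Q.side ∈ H) :
    (∀ j, b j - a j ∈ H) ∧ ∀ Q ∈ L, Q.side ∈ H := by
  induction h with
  | cube a s hs =>
    obtain ⟨Q, hQ1, hQ2⟩ := hQ
    rw [List.mem_singleton] at hQ1
    subst hQ1
    refine ⟨fun j => ?_, fun Q' hQ' => ?_⟩
    · have : a j + s - a j = s := by ring
      rw [this]
      exact hQ2
    · rw [List.mem_singleton] at hQ'
      subst hQ'
      exact hQ2
  | cut a b i c L₁ L₂ hac hcb h1 h2 ih1 ih2 =>
    have hcut : Guillotine a b (L₁ ++ L₂) := Guillotine.cut a b i c L₁ L₂ hac hcb h1 h2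
    have hlen : L₁.length + L₂.length ≤ M := by rwa [List.length_append] at hL
    have hA : ∀ l, l ≠ i → b l - a l ∈ H := by
      obtain ⟨Q0, hm, hs⟩ := hQ
      intro l hl
      rcases List.mem_append.mp hm with hm | hm
      · have h3 := (ih1 (by omega) ⟨Q0, hm, hs⟩).1 l
        rwa [Function.update_of_ne hl] at h3
      · have h3 := (ih2 (by omega) ⟨Q0, hm, hs⟩).1 l
        rwa [Function.update_of_ne hl] at h3
    have hB : ∀ Q ∈ L₁ ++ L₂, Q.side ∈ H := by
      intro Q hQm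
      obtain ⟨t1, t2⟩ := guillotine_tiling hcut
      obtain ⟨q, hq⟩ := List.mem_iff_get.mp hQm
      have hbnd : ∀ q : Fin (L₁ ++ L₂).length, 0 < ((L₁ ++ L₂).get q).side ∧
          ∀ j, a j ≤ ((L₁ ++ L₂).get q).lower j ∧
            ((L₁ ++ L₂).get q).lower j + ((L₁ ++ L₂).get q).side ≤ b j :=
        fun q => t1 _ (List.get_mem _ q)
      have hc : a i ≤ ((L₁ ++ L₂).get q).lower i ∧ ((L₁ ++ L₂).get q).lower i < b i := by
        have h3 := hbnd q
        have h4 := h3.2 i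
        exact ⟨h4.1, by linarith [h3.1, h4.2]⟩
      obtain ⟨k', e, hk', htile, hcov⟩ := section_box a b (L₁ ++ L₂).get hbnd t2 i
        (((L₁ ++ L₂).get q).lower i) hc
      obtain ⟨q', hq'⟩ := hcov q ⟨le_rfl, by linarith [(hbnd q).1]⟩
      have h5 := hsec k' _ _ (le_trans hk' hL)
        (fun j => by have := (guillotine_lt hcut).1 (i.succAbove j); linarith) htile
        (fun j => hA _ (Fin.succAbove_ne i j)) q'
      simp only [hq'] at h5
      rw [← hq]
      exact h5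
    refine ⟨?_, hB⟩
    intro j
    by_cases hj : j = i
    · subst hj
      obtain ⟨Q1, hQ1⟩ := List.exists_mem_of_ne_nil _ (guillotine_lt h1).2
      obtain ⟨Q2, hQ2⟩ := List.exists_mem_of_ne_nil _ (guillotine_lt h2).2
      have h3 := (ih1 (by omega) ⟨Q1, hQ1, hB Q1 (List.mem_append_left _ hQ1)⟩).1 j
      have h4 := (ih2 (by omega) ⟨Q2, hQ2, hB Q2 (List.mem_append_right _ hQ2)⟩).1 j
      rw [Function.update_self] at h3 h4
      have h5 : b j - a j = (c - a j) + (b j - c) := by ring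
      rw [h5]
      exact H.add_mem h3 h4
    · exact hA j hj
end Pool.Agent.H274C
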