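import Mathlib
import Pool.Prelude.Def_F_cef2bd1b
import Pool.Agent.Helper274.CT.BoxDef
set_option autoImplicit false
open N0a8789b9
namespace Pool.Agent.H274C

theorem guillotine_grid_aux {n : ℕ} (t : ℝ) (ht : 0 < t) : ∀ (k : ℕ) (a : Fin n → ℝ)
    (m : Fin n → ℕ), (∀ j, 1 ≤ m j) → ∑ j, m j = k →
    ∃ L, Guillotine a (fun j => a j + m j * t) L ∧ L.length = ∏ j, m j := by
  intro k
  induction k using Nat.strong_induction_on with
  | _ k ih =>
    intro a m hm hk
    by_cases hall : ∀ j, m j = 1
    · refine ⟨[⟨a, t⟩], ?_, ?_⟩
      · have hb : (fun j => a j + (m j : ℝ) * t) = fun j => a j + t := by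
          funext j
          rw [hall j]; push_cast; ring
        rw [hb]
        exact Guillotine.cube a t ht
      · simp [hall]
    · push Not at hall
      obtain ⟨i, hi⟩ := hall
      have hi2 : 2 ≤ m i := by have := hm i; omega
      have hsum : ∀ v : ℕ, ∑ j, Function.update m i v j
          = v + ∑ j ∈ Finset.univ \ {i}, m j := fun v =>
        Finset.sum_update_of_mem (Finset.mem_univ i) m v
      have hprod : ∀ v : ℕ, ∏ j, Function.update m i v j
          = v * ∏ j ∈ Finset.univ \ {i}, m j := fun v =>
        Finset.prod_update_of_mem (Finset.mem_univ i) m v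
      have hs0 : ∑ j, m j = m i + ∑ j ∈ Finset.univ \ {i}, m j := by
        have := hsum (m i)
        rwa [Function.update_eq_self] at this
      have hp0 : ∏ j, m j = m i * ∏ j ∈ Finset.univ \ {i}, m j := by
        have := hprod (m i)
        rwa [Function.update_eq_self] at this
      have hm1 : ∀ j, 1 ≤ Function.update m i 1 j := by
        intro j
        by_cases hj : j = i
        · subst hj; simp
        · rw [Function.update_of_ne hj]; exact hm j
      have hm2 : ∀ j, 1 ≤ Function.update m i (m i - 1) j := by
        intro j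
        by_cases hj : j = i
        · subst hj; rw [Function.update_self]; omega
        · rw [Function.update_of_ne hj]; exact hm j
      obtain ⟨L₁, g1, l1⟩ := ih (∑ j, Function.update m i 1 j)
        (by rw [hsum, ← hk, hs0]; omega) a (Function.update m i 1) hm1 rfl
      obtain ⟨L₂, g2, l2⟩ := ih (∑ j, Function.update m i (m i - 1) j)
        (by rw [hsum, ← hk, hs0]; omega) (Function.update a i (a i + t))
        (Function.update m i (m i - 1)) hm2 rfl
      have e1 : (fun j => a j + ((Function.update m i 1 j : ℕ) : ℝ) * t)
          = Function.update (fun j => a j + (m j : ℝ) * t) i (a i + t) := by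
        funext j
        by_cases hj : j = i
        · subst hj; simp
        · rw [Function.update_of_ne hj, Function.update_of_ne hj]
      have e2 : (fun j => Function.update a i (a i + t) j
          + ((Function.update m i (m i - 1) j : ℕ) : ℝ) * t)
          = fun j => a j + (m j : ℝ) * t := by
        funext j
        by_cases hj : j = i
        · subst hj
          rw [Function.update_self, Function.update_self, Nat.cast_sub (hm j)]
          push_cast; ring
        · rw [Function.update_of_ne hj, Function.update_of_ne hj]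
      rw [e1] at g1
      rw [e2] at g2
      refine ⟨L₁ ++ L₂, Guillotine.cut a (fun j => a j + (m j : ℝ) * t) i (a i + t) L₁ L₂
        (by linarith) ?_ g1 g2, ?_⟩
      · have : (2 : ℝ) ≤ m i := by exact_mod_cast hi2
        nlinarith
      · rw [List.length_append, l1, l2, hprod, hprod, hp0, ← Nat.add_mul]
        congr 1
        omega

theorem guillotine_grid {n : ℕ} (a : Fin n → ℝ) (t : ℝ) (ht : 0 < t) (m : Fin n → ℕ)
    (hm : ∀ j, 1 ≤ m j) :
    ∃ L, Guillotine a (fun j => a j + m j * t) L ∧ L.length = ∏ j, m j :=
  guillotine_grid_aux t ht _ a m hm rfl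

theorem guillotine_replace {n : ℕ}
    (guillotine_grid : ∀ (a : Fin n → ℝ) (t : ℝ) (_ : 0 < t) (m : Fin n → ℕ)
      (_ : ∀ j, 1 ≤ m j), ∃ L, Guillotine a (fun j => a j + m j * t) L ∧ L.length = ∏ j, m j)
    {a b : Fin n → ℝ} {L : List (Cube n)} (h : Guillotine a b L)
    (m : ℕ) (hm : 1 ≤ m) : ∃ L', Guillotine a b L' ∧ L'.length = L.length + (m ^ n - 1) := by
  induction h with
  | cube a s hs =>
    have hmR : (0 : ℝ) < m := by exact_mod_cast hm
    obtain ⟨L, g, l⟩ := guillotine_grid a (s / m) (by positivity) (fun _ => m) (fun _ => hm)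
    refine ⟨L, ?_, ?_⟩
    · have hb : (fun j => a j + ((m : ℕ) : ℝ) * (s / m)) = fun j => a j + s := by
        funext j
        field_simp
      rw [hb] at g
      exact g
    · rw [l]
      have : 1 ≤ m ^ n := Nat.one_le_pow _ _ hm
      simp
      omega
  | cut a b i c L₁ L₂ hac hcb h1 h2 ih1 ih2 =>
    obtain ⟨L', g, l⟩ := ih1
    refine ⟨L' ++ L₂, Guillotine.cut a b i c L' L₂ hac hcb g h2, ?_⟩
    rw [List.length_append, List.length_append, l]
    omega

end Pool.Agent.H274C
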