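import Mathlib
import Pool.Prelude.Def_F_cef2bd1b
import Pool.Agent.Helper274.CT.BoxDef
set_option autoImplicit false
open N0a8789b9
namespace Pool.Agent.H274C
open MeasureTheory

theorem loomis_box {n k : ℕ} (hn : 2 ≤ n)
    (finner : ∀ (f : Fin n → (Fin n → ℝ) → ENNReal)
      (_ : ∀ i, Measurable (f i)) (_ : ∀ i x t, f i (Function.update x i t) = f i x),
      ∫⁻ x, ∏ i, f i x ^ ((1 : ℝ) / ((n : ℝ) - 1)) ≤
        ∏ i, (lmarginal (fun _ => (volume : Measure ℝ)) (Finset.univ.erase i) (f i) 0)
          ^ ((1 : ℝ) / ((n : ℝ) - 1)))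
    (D : Fin n → ℝ)
    (T : Fin k → Cube n) (hT : BoxTiling D T) (S : Finset (Fin k)) (B : Fin n → Finset (Fin k))
    (hB : ∀ i, ∀ q ∈ S, ∀ x, (T q).Mem x → ∃ q' ∈ B i, ∀ l, l ≠ i →
      (T q').lower l ≤ x l ∧ x l < (T q').lower l + (T q').side) :
    (∑ q ∈ S, (T q).side ^ n) ^ (n - 1) ≤ ∏ i, ∑ q ∈ B i, (T q).side ^ (n - 1) := by
  have hs : ∀ q, 0 < (T q).side := fun q => (hT.1 q).1
  set R : Fin n → Fin k → Set (Fin n → ℝ) := fun i q' =>
    {x | ∀ l, l ≠ i → (T q').lower l ≤ x l ∧ x l < (T q').lower l + (T q').side} with hR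
  have hRm : ∀ i q', MeasurableSet (R i q') := by
    intro i q'
    have e : R i q' = ⋂ l, ⋂ (_ : l ≠ i),
        (fun x : Fin n → ℝ => x l) ⁻¹' (Set.Ico ((T q').lower l) ((T q').lower l + (T q').side)) := by
      ext x
      simp [hR]
    rw [e]
    exact MeasurableSet.iInter fun l => MeasurableSet.iInter fun _ =>
      measurableSet_Ico.preimage (measurable_pi_apply l)
  set f : Fin n → (Fin n → ℝ) → ENNReal := fun i x =>
    ∑ q' ∈ B i, (R i q').indicator (fun _ => (1 : ENNReal)) x with hf
  have hfm : ∀ i, Measurable (f i) := by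
    intro i
    exact Finset.measurable_fun_sum _ (fun q' _ => measurable_const.indicator (hRm i q'))
  have hfi : ∀ i x t, f i (Function.update x i t) = f i x := by
    intro i x t
    apply Finset.sum_congr rfl
    intro q' _
    have e : (Function.update x i t ∈ R i q') ↔ (x ∈ R i q') := by
      simp only [hR, Set.mem_setOf_eq]
      constructor
      · intro h l hl
        have := h l hl
        rwa [Function.update_of_ne hl] at this
      · intro h l hl
        rw [Function.update_of_ne hl]
        exact h l hl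
    by_cases hx : x ∈ R i q'
    · rw [Set.indicator_of_mem hx, Set.indicator_of_mem (e.2 hx)]
    · rw [Set.indicator_of_notMem hx, Set.indicator_of_notMem (fun h => hx (e.1 h))]
  have h := finner f hfm hfi
  have hlm : ∀ i, lmarginal (fun _ => (volume : Measure ℝ)) (Finset.univ.erase i) (f i) 0 =
      ∑ q' ∈ B i, ENNReal.ofReal (T q').side ^ (n - 1) := by
    intro i
    unfold lmarginal
    have e1 : (fun y : (∀ _ : (Finset.univ.erase i : Finset (Fin n)), ℝ) =>
        f i (Function.updateFinset 0 (Finset.univ.erase i) y)) =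
        fun y => ∑ q' ∈ B i, (Set.pi Set.univ (fun l : (Finset.univ.erase i : Finset (Fin n)) =>
          Set.Ico ((T q').lower l) ((T q').lower l + (T q').side))).indicator
            (fun _ => (1 : ENNReal)) y := by
      funext y
      apply Finset.sum_congr rfl
      intro q' _
      have e : (Function.updateFinset (0 : Fin n → ℝ) (Finset.univ.erase i) y ∈ R i q') ↔
          (y ∈ Set.pi Set.univ (fun l : (Finset.univ.erase i : Finset (Fin n)) =>
            Set.Ico ((T q').lower l) ((T q').lower l + (T q').side))) := by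
        simp only [hR, Set.mem_setOf_eq, Set.mem_pi, Set.mem_univ, true_implies, Set.mem_Ico]
        constructor
        · rintro h ⟨l, hl⟩
          have hl' : l ≠ i := (Finset.mem_erase.1 hl).1
          have := h l hl'
          rw [Function.updateFinset, dif_pos hl] at this
          exact this
        · intro h l hl
          have hl' : l ∈ Finset.univ.erase i := Finset.mem_erase.2 ⟨hl, Finset.mem_univ _⟩
          rw [Function.updateFinset, dif_pos hl']
          exact h ⟨l, hl'⟩
      by_cases hx : y ∈ Set.pi Set.univ (fun l : (Finset.univ.erase i : Finset (Fin n)) =>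
            Set.Ico ((T q').lower l) ((T q').lower l + (T q').side))
      · rw [Set.indicator_of_mem hx, Set.indicator_of_mem (e.2 hx)]
      · rw [Set.indicator_of_notMem hx, Set.indicator_of_notMem (fun h => hx (e.1 h))]
    have hpm : ∀ q', MeasurableSet (Set.pi Set.univ
        (fun l : (Finset.univ.erase i : Finset (Fin n)) =>
          Set.Ico ((T q').lower l) ((T q').lower l + (T q').side))) := fun q' =>
      MeasurableSet.univ_pi fun l => measurableSet_Ico
    rw [lintegral_congr (fun y => congrFun e1 y)]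
    rw [lintegral_finsetSum _ (fun q' _ => measurable_const.indicator (hpm q'))]
    apply Finset.sum_congr rfl
    intro q' _
    rw [lintegral_indicator_const (hpm q'), one_mul, Measure.pi_pi]
    simp only [Real.volume_Ico, add_sub_cancel_left]
    rw [Finset.prod_const, Finset.card_univ, Fintype.card_coe, Finset.card_erase_of_mem
      (Finset.mem_univ i), Finset.card_univ, Fintype.card_fin]
  simp only [hlm] at h
  -- the left side
  have hcube : ∀ q, {x | (T q).Mem x} = Set.pi Set.univ (fun l : Fin n =>
      Set.Ico ((T q).lower l) ((T q).lower l + (T q).side)) := by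
    intro q
    ext x
    simp [Cube.Mem]
  have hcm : ∀ q, MeasurableSet {x | (T q).Mem x} := by
    intro q
    rw [hcube q]
    exact MeasurableSet.univ_pi fun l => measurableSet_Ico
  have hvol : ∀ q, volume {x | (T q).Mem x} = ENNReal.ofReal (T q).side ^ n := by
    intro q
    rw [hcube q, volume_pi_pi]
    simp only [Real.volume_Ico, add_sub_cancel_left]
    rw [Finset.prod_const, Finset.card_univ, Fintype.card_fin]
  have hdisj : Set.PairwiseDisjoint (↑S : Set (Fin k)) (fun q => {x | (T q).Mem x}) := by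
    intro q _ q' _ hqq
    show Disjoint {x | (T q).Mem x} {x | (T q').Mem x}
    rw [Set.disjoint_left]
    intro x hx hx'
    have hx1 : (T q).Mem x := hx
    have hx2 : (T q').Mem x := hx'
    have hu : ∀ j, 0 ≤ x j ∧ x j < D j := by
      intro j
      have h1 := hx1 j
      have h2 := (hT.1 q).2 j
      constructor <;> linarith
    obtain ⟨p, _, hp⟩ := hT.2 x hu
    exact hqq ((hp q hx1).trans (hp q' hx2).symm)
  have hL : ∑ q ∈ S, ENNReal.ofReal (T q).side ^ n ≤
      ∫⁻ x, ∏ i, f i x ^ ((1 : ℝ) / ((n : ℝ) - 1)) := by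
    have e1 : ∑ q ∈ S, ENNReal.ofReal (T q).side ^ n = volume (⋃ q ∈ S, {x | (T q).Mem x}) := by
      rw [measure_biUnion_finset hdisj (fun q _ => hcm q)]
      exact Finset.sum_congr rfl fun q _ => (hvol q).symm
    rw [e1, ← one_mul (volume _), ← lintegral_indicator_const
      (Finset.measurableSet_biUnion _ (fun q _ => hcm q))]
    apply lintegral_mono
    intro x
    by_cases hx : x ∈ ⋃ q ∈ S, {x | (T q).Mem x}
    · rw [Set.indicator_of_mem hx]
      simp only [Set.mem_iUnion, exists_prop, Set.mem_setOf_eq] at hx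
      obtain ⟨q, hqS, hqx⟩ := hx
      have hge : ∀ i, 1 ≤ f i x := by
        intro i
        obtain ⟨q', hq', hm⟩ := hB i q hqS x hqx
        have hm' : x ∈ R i q' := hm
        calc (1 : ENNReal) = (R i q').indicator (fun _ => (1 : ENNReal)) x := by
              rw [Set.indicator_of_mem hm']
          _ ≤ f i x := Finset.single_le_sum
              (f := fun q' => (R i q').indicator (fun _ => (1 : ENNReal)) x)
              (fun _ _ => zero_le) hq'
      apply Finset.one_le_prod'
      intro i _
      have hn1 : (0 : ℝ) ≤ 1 / ((n : ℝ) - 1) := by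
        have : (2 : ℝ) ≤ n := by exact_mod_cast hn
        apply div_nonneg zero_le_one
        linarith
      calc (1 : ENNReal) = 1 ^ ((1 : ℝ) / ((n : ℝ) - 1)) := (ENNReal.one_rpow _).symm
        _ ≤ _ := ENNReal.rpow_le_rpow (hge i) hn1
    · rw [Set.indicator_of_notMem hx]
      exact zero_le
  have h2 := hL.trans h
  have h3 := pow_le_pow_left₀ zero_le h2 (n - 1)
  rw [← Finset.prod_pow] at h3
  have hpw : ∀ a : ENNReal, (a ^ ((1 : ℝ) / ((n : ℝ) - 1))) ^ (n - 1) = a := by
    intro a
    rw [← ENNReal.rpow_natCast, ← ENNReal.rpow_mul]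
    have hn2 : (2 : ℝ) ≤ n := by exact_mod_cast hn
    have e : (1 : ℝ) / ((n : ℝ) - 1) * ((n - 1 : ℕ) : ℝ) = 1 := by
      rw [Nat.cast_sub (by omega)]
      have : (n : ℝ) - 1 ≠ 0 := by linarith
      push_cast
      field_simp
    rw [e, ENNReal.rpow_one]
  simp only [hpw] at h3
  have e1 : (∑ q ∈ S, ENNReal.ofReal (T q).side ^ n) ^ (n - 1) =
      ENNReal.ofReal ((∑ q ∈ S, (T q).side ^ n) ^ (n - 1)) := by
    rw [ENNReal.ofReal_pow (Finset.sum_nonneg fun q _ => (pow_pos (hs q) n).le),
      ENNReal.ofReal_sum_of_nonneg (fun q _ => (pow_pos (hs q) n).le)]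
    congr 1
    exact Finset.sum_congr rfl fun q _ => (ENNReal.ofReal_pow (hs q).le n).symm
  have e2 : ∏ i, ∑ q' ∈ B i, ENNReal.ofReal (T q').side ^ (n - 1) =
      ENNReal.ofReal (∏ i, ∑ q ∈ B i, (T q).side ^ (n - 1)) := by
    rw [ENNReal.ofReal_prod_of_nonneg
      (fun i _ => Finset.sum_nonneg fun q _ => (pow_pos (hs q) _).le)]
    apply Finset.prod_congr rfl
    intro i _
    rw [ENNReal.ofReal_sum_of_nonneg (fun q _ => (pow_pos (hs q) _).le)]
    exact Finset.sum_congr rfl fun q _ => (ENNReal.ofReal_pow (hs q).le _).symm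
  rw [e1, e2] at h3
  exact (ENNReal.ofReal_le_ofReal_iff (Finset.prod_nonneg fun i _ =>
    Finset.sum_nonneg fun q _ => (pow_pos (hs q) _).le)).1 h3


end Pool.Agent.H274C
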