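import Mathlib
import Pool.Prelude.Def_F_cef2bd1b
import Pool.Agent.Helper274.CT.SecondMoment
set_option autoImplicit false
open N0a8789b9 Classical
namespace Pool.Agent.H274C

theorem core {n k : ℕ} (hn : 2 ≤ n) (T : Fin k → Cube n) (hT : IsTiling T)
    (H : AddSubgroup ℝ) (h1 : (1 : ℝ) ∈ H)
    (loomis : ∀ (S : Finset (Fin k)) (B : Fin n → Finset (Fin k)),
      (∀ i, ∀ q ∈ S, ∀ x, (T q).Mem x → ∃ q' ∈ B i, ∀ l, l ≠ i →
        (T q').lower l ≤ x l ∧ x l < (T q').lower l + (T q').side) →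
      (∑ q ∈ S, (T q).side ^ n) ^ (n - 1) ≤ ∏ i, ∑ q ∈ B i, (T q).side ^ (n - 1))
    (first_cube : ∀ (i : Fin n) (q : Fin k), (T q).side ∉ H → ∀ x : Fin n → ℝ, (T q).Mem x →
      ∃ q', (T q').side ∉ H ∧ (T q').lower i ∈ H ∧ ∀ l, l ≠ i →
      (T q').lower l ≤ x l ∧ x l < (T q').lower l + (T q').side)
    (second_moment : ∀ C : Finset (ℝ ⧸ H),
      ∑ q ∈ Finset.univ.filter (fun q => (T q).side ∉ H),
          (T q).side ^ (n - 2) * ∑ c ∈ C, (∑ i, uu H (T q) c i) ^ 2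
        ≤ 2 * n * ∑ q ∈ Finset.univ.filter (fun q => (T q).side ∉ H), (T q).side ^ (n - 2))
    (walk : ∀ {G : Type} [AddCommGroup G] (ρ : Fin n → G) (σ : G) (J : ℕ) (_ : 1 ≤ J)
      (_ : ∀ m : ℕ, 0 < m → m < J → m • σ ≠ 0) (C : Finset G)
      (_ : ∀ j : ℕ, j ≤ J → j • σ ∈ C),
      ((Finset.univ.filter (fun i => ρ i = 0)).card : ℝ) ≤ n / J +
        √(J * ∑ c ∈ C, (∑ i, ((if ρ i + σ = c then (1 : ℝ) else 0)
          - (if ρ i = c then (1 : ℝ) else 0))) ^ 2))
    (N_bounds : ∀ {ι : Type} (S : Finset ι) (s : ι → ℝ) (_ : ∀ q ∈ S, 0 < s q) (M : ℝ)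
      (_ : ∀ q ∈ S, s q ≤ M) (_ : ∃ q ∈ S, s q = M) (K : ℝ) (_ : 1 ≤ K)
      (_ : (S.card : ℝ) ≤ K ^ n),
      ∑ q ∈ S, s q ^ (n - 1) ≤ 4 * K / M * ∑ q ∈ S, s q ^ n ∧
      ∑ q ∈ S, s q ^ (n - 2) ≤ 8 * K ^ 2 / M ^ 2 * ∑ q ∈ S, s q ^ n)
    (lower_bound : ∀ (N : ℝ) (_ : 0 < N) (m : Fin n → ℝ)
      (_ : ∀ i, 0 ≤ m i) (_ : N ^ (n - 1) ≤ ∏ i, m i) (R : ℝ) (_ : 0 < R) (_ : N ≤ R ^ n),
      n * N / R ≤ ∑ i, m i)
    (K : ℝ) (hK : 1 ≤ K) (hk : (k : ℝ) ≤ K ^ n) (J : ℕ) (hJ : 8 * K ^ 2 < J)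
    (hnJ : 64 * K ^ 4 * J ≤ n)
    (hH : ∀ z : ℝ, ∀ m : ℕ, 0 < m → m < J → m • z ∈ H → z ∈ H) :
    ∀ q, (T q).side ∈ H := by
  by_contra hcon
  push Not at hcon
  obtain ⟨q0, hq0⟩ := hcon
  have hpos : ∀ q, 0 < (T q).side := fun q => (hT.1 q).1
  obtain ⟨S, hS⟩ : ∃ S : Finset (Fin k), S = Finset.univ.filter (fun q => (T q).side ∉ H) := ⟨_, rfl⟩
  rw [← hS] at second_moment
  have hmemS : ∀ q, q ∈ S ↔ (T q).side ∉ H := by
    intro q; rw [hS, Finset.mem_filter]; simp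
  have hSne : S.Nonempty := ⟨q0, (hmemS q0).2 hq0⟩
  obtain ⟨qM, hqM, hmax⟩ := Finset.exists_max_image S (fun q => (T q).side) hSne
  obtain ⟨M, hM⟩ : ∃ M, M = (T qM).side := ⟨_, rfl⟩
  have hM0 : 0 < M := by rw [hM]; exact hpos qM
  have hmax' : ∀ q ∈ S, (T q).side ≤ M := by intro q hq; rw [hM]; exact hmax q hq
  have hn0 : (0 : ℝ) < n := by exact_mod_cast (by omega : 0 < n)
  have hK0 : 0 < K := by linarith
  have hJ0 : (0 : ℝ) < J := by
    have : 0 < 8 * K ^ 2 := by positivity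
    linarith
  have hJ1 : 1 ≤ J := by
    have : 0 < J := by exact_mod_cast hJ0
    omega
  have hcardS : (S.card : ℝ) ≤ K ^ n := by
    refine le_trans ?_ hk
    have : S.card ≤ k := by
      calc S.card ≤ (Finset.univ : Finset (Fin k)).card := Finset.card_le_card (Finset.subset_univ _)
        _ = k := by simp
    exact_mod_cast this
  -- the bounds
  obtain ⟨hN1, hN2⟩ := N_bounds S (fun q => (T q).side) (fun q _ => hpos q) M hmax'
    ⟨qM, hqM, hM.symm⟩ K hK hcardS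
  have hloom := loomis S (fun i => S.filter (fun q => (T q).lower i ∈ H)) (by
    intro i q hq x hx
    obtain ⟨q', h1, h2, h3⟩ := first_cube i q ((hmemS q).1 hq) x hx
    exact ⟨q', Finset.mem_filter.2 ⟨(hmemS q').2 h1, h2⟩, h3⟩)
  obtain ⟨N0, hN0⟩ : ∃ N0, N0 = ∑ q ∈ S, (T q).side ^ n := ⟨_, rfl⟩
  rw [← hN0] at hloom hN1 hN2
  have hN0pos : 0 < N0 := by
    rw [hN0]
    exact Finset.sum_pos (fun q _ => pow_pos (hpos q) n) hSne
  have hN0le : N0 ≤ (K * M) ^ n := by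
    calc N0 ≤ ∑ q ∈ S, M ^ n := by
          rw [hN0]
          exact Finset.sum_le_sum (fun q hq => pow_le_pow_left₀ (hpos q).le (hmax' q hq) n)
      _ = S.card * M ^ n := by rw [Finset.sum_const, nsmul_eq_mul]
      _ ≤ K ^ n * M ^ n := by
          apply mul_le_mul_of_nonneg_right hcardS (by positivity)
      _ = _ := by rw [mul_pow]
  have hlow := lower_bound N0 hN0pos
    (fun i => ∑ q ∈ S.filter (fun q => (T q).lower i ∈ H), (T q).side ^ (n - 1))
    (fun i => Finset.sum_nonneg (fun q _ => pow_nonneg (hpos q).le _)) hloom (K * M)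
    (by positivity) hN0le
  -- rewrite the right-hand side
  have hsw : ∑ i, ∑ q ∈ S.filter (fun q => (T q).lower i ∈ H), (T q).side ^ (n - 1) =
      ∑ q ∈ S, (T q).side ^ (n - 1) *
        ((Finset.univ.filter (fun i => QuotientAddGroup.mk' H ((T q).lower i) = 0)).card : ℝ) := by
    calc ∑ i, ∑ q ∈ S.filter (fun q => (T q).lower i ∈ H), (T q).side ^ (n - 1)
        = ∑ i, ∑ q ∈ S, if (T q).lower i ∈ H then (T q).side ^ (n - 1) else 0 := by
          apply Finset.sum_congr rfl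
          intro i _
          rw [Finset.sum_filter]
      _ = ∑ q ∈ S, ∑ i, if (T q).lower i ∈ H then (T q).side ^ (n - 1) else 0 :=
          Finset.sum_comm
      _ = _ := by
          apply Finset.sum_congr rfl
          intro q _
          rw [← Finset.sum_filter, Finset.sum_const, nsmul_eq_mul, mul_comm]
          congr 2
          apply congrArg
          ext i
          simp only [Finset.mem_filter, Finset.mem_univ, true_and]
          exact (QuotientAddGroup.eq_zero_iff _).symm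
  rw [hsw] at hlow
  -- the walk
  obtain ⟨C, hC⟩ : ∃ C : Finset (ℝ ⧸ H), C = S.biUnion (fun q =>
      (Finset.range (J + 1)).image (fun j => j • QuotientAddGroup.mk' H ((T q).side))) := ⟨_, rfl⟩
  have hsm := second_moment C
  have hwalk : ∀ q ∈ S,
      ((Finset.univ.filter (fun i => QuotientAddGroup.mk' H ((T q).lower i) = 0)).card : ℝ) ≤
        n / J + √(J * ∑ c ∈ C, (∑ i, uu H (T q) c i) ^ 2) := by
    intro q hq
    have := walk (fun i => QuotientAddGroup.mk' H ((T q).lower i))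
      (QuotientAddGroup.mk' H ((T q).side)) J hJ1 (by
        intro m hm hmJ h0
        apply (hmemS q).1 hq
        apply hH _ m hm hmJ
        rw [← map_nsmul] at h0
        exact (QuotientAddGroup.eq_zero_iff _).1 h0) C (by
        intro j hj
        rw [hC, Finset.mem_biUnion]
        refine ⟨q, hq, ?_⟩
        rw [Finset.mem_image]
        exact ⟨j, Finset.mem_range.2 (by omega), rfl⟩)
    unfold uu
    convert this
  obtain ⟨V, hV⟩ : ∃ V : Fin k → ℝ, V = fun q => ∑ c ∈ C, (∑ i, uu H (T q) c i) ^ 2 := ⟨_, rfl⟩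
  have hV0 : ∀ q, 0 ≤ V q := by
    intro q; rw [hV]; exact Finset.sum_nonneg (fun c _ => sq_nonneg _)
  have hVq : ∀ q, ∑ c ∈ C, (∑ i, uu H (T q) c i) ^ 2 = V q := by intro q; rw [hV]
  simp only [hVq] at hwalk hsm
  have hstep : ∑ q ∈ S, (T q).side ^ (n - 1) *
        ((Finset.univ.filter (fun i => QuotientAddGroup.mk' H ((T q).lower i) = 0)).card : ℝ) ≤
      n / J * ∑ q ∈ S, (T q).side ^ (n - 1) +
        √N0 * √(∑ q ∈ S, J * ((T q).side ^ (n - 2) * V q)) := by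
    have hCS := Real.sum_sqrt_mul_sqrt_le S (f := fun q => (T q).side ^ n)
      (g := fun q => J * ((T q).side ^ (n - 2) * V q))
      (fun q => pow_nonneg (hpos q).le _)
      (fun q => mul_nonneg hJ0.le (mul_nonneg (pow_nonneg (hpos q).le _) (hV0 q)))
    rw [← hN0] at hCS
    refine le_trans ?_ (add_le_add le_rfl hCS)
    rw [Finset.mul_sum, ← Finset.sum_add_distrib]
    apply Finset.sum_le_sum
    intro q hq
    have h1 := mul_le_mul_of_nonneg_left (hwalk q hq) (pow_nonneg (hpos q).le (n - 1))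
    refine h1.trans (le_of_eq ?_)
    rw [mul_add, mul_comm ((T q).side ^ (n - 1)) ((n : ℝ) / J)]
    congr 1
    rw [← Real.sqrt_mul (pow_nonneg (hpos q).le _)]
    have e1 : (T q).side ^ n * (J * ((T q).side ^ (n - 2) * V q)) =
        ((T q).side ^ (n - 1)) ^ 2 * (J * V q) := by
      obtain ⟨m, rfl⟩ : ∃ m, n = m + 2 := ⟨n - 2, by omega⟩
      rw [show m + 2 - 1 = m + 1 from rfl, show m + 2 - 2 = m from rfl]
      ring
    rw [e1, Real.sqrt_mul (sq_nonneg _), Real.sqrt_sq (pow_nonneg (hpos q).le _)]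
  obtain ⟨N1, hN1'⟩ : ∃ N1, N1 = ∑ q ∈ S, (T q).side ^ (n - 1) := ⟨_, rfl⟩
  obtain ⟨N2, hN2'⟩ : ∃ N2, N2 = ∑ q ∈ S, (T q).side ^ (n - 2) := ⟨_, rfl⟩
  rw [← hN1'] at hN1 hstep
  rw [← hN2'] at hN2 hsm
  have hsum2 : ∑ q ∈ S, J * ((T q).side ^ (n - 2) * V q) ≤ J * (2 * n * N2) := by
    rw [← Finset.mul_sum]
    exact mul_le_mul_of_nonneg_left hsm hJ0.le
  obtain ⟨w, hw⟩ : ∃ w, w = N0 / M := ⟨_, rfl⟩
  have hw0 : 0 < w := by rw [hw]; positivity
  have hNM : N0 = w * M := by rw [hw]; field_simp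
  have hA : √N0 * √(∑ q ∈ S, J * ((T q).side ^ (n - 2) * V q)) ≤ n / (2 * K) * w := by
    rw [← Real.sqrt_mul hN0pos.le]
    rw [Real.sqrt_le_left (by positivity)]
    calc N0 * ∑ q ∈ S, J * ((T q).side ^ (n - 2) * V q) ≤ N0 * (J * (2 * n * N2)) :=
          mul_le_mul_of_nonneg_left hsum2 hN0pos.le
      _ ≤ N0 * (J * (2 * n * (8 * K ^ 2 / M ^ 2 * N0))) := by
          apply mul_le_mul_of_nonneg_left _ hN0pos.le
          apply mul_le_mul_of_nonneg_left _ hJ0.le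
          apply mul_le_mul_of_nonneg_left hN2 (by positivity)
      _ = 16 * n * K ^ 2 * w ^ 2 * J := by
          rw [hNM]; field_simp; ring
      _ ≤ 16 * n * K ^ 2 * w ^ 2 * (n / (64 * K ^ 4)) := by
          apply mul_le_mul_of_nonneg_left _ (by positivity)
          rw [le_div_iff₀ (by positivity)]
          linarith
      _ = (n / (2 * K) * w) ^ 2 := by field_simp; ring
  have hB : n / J * N1 < n / (2 * K) * w := by
    calc n / J * N1 ≤ n / J * (4 * K / M * N0) :=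
          mul_le_mul_of_nonneg_left hN1 (by positivity)
      _ = 4 * n * K * w / J := by rw [hNM]; field_simp
      _ < n / (2 * K) * w := by
          rw [div_lt_iff₀ hJ0]
          have h2 : n / (2 * K) * w * J = (n * w / (2 * K)) * J := by ring
          rw [h2]
          have h3 : 4 * n * K * w = (n * w / (2 * K)) * (8 * K ^ 2) := by field_simp; ring
          rw [h3]
          exact mul_lt_mul_of_pos_left hJ (by positivity)
  have hfin : n * N0 / (K * M) = 2 * (n / (2 * K) * w) := by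
    rw [hNM]; field_simp
  rw [hfin] at hlow
  linarith [hlow.trans hstep]

end Pool.Agent.H274C
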