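import Mathlib
import Pool.Prelude.Def_F_cef2bd1b
set_option autoImplicit false
open N0a8789b9
namespace Pool.Agent.H274C



theorem first_cube {n k : ℕ} (T : Fin k → Cube n) (hT : IsTiling T)
    (add_identity : ∀ g : Fin n → ℝ → ℝ,
      ∑ q, ∏ i, (g i ((T q).lower i + (T q).side) - g i ((T q).lower i))
        = ∏ i, (g i 1 - g i 0))
    (H : AddSubgroup ℝ) (h1 : (1 : ℝ) ∈ H) (i : Fin n) (q : Fin k) (hq : (T q).side ∉ H)
    (x : Fin n → ℝ) (hx : (T q).Mem x) :
    ∃ q', (T q').side ∉ H ∧ (T q').lower i ∈ H ∧ ∀ l, l ≠ i →
      (T q').lower l ≤ x l ∧ x l < (T q').lower l + (T q').side := by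
  classical
  have hin : ∀ p, (T p).InsideUnit := hT.1
  obtain ⟨q', hq'mem, hmin⟩ := Finset.exists_min_image
    (Finset.univ.filter (fun p : Fin k => (T p).side ∉ H ∧ ∀ l, l ≠ i →
      (T p).lower l ≤ x l ∧ x l < (T p).lower l + (T p).side)) (fun p => (T p).lower i)
    ⟨q, Finset.mem_filter.2 ⟨Finset.mem_univ _, hq, fun l _ => hx l⟩⟩
  obtain ⟨_, hq's, hq'l⟩ := Finset.mem_filter.1 hq'mem
  refine ⟨q', hq's, ?_, hq'l⟩
  by_contra ha
  have hx01 : ∀ l, 0 ≤ x l ∧ x l < 1 := fun l =>
    ⟨((hin q).2 l).1.trans (hx l).1, (hx l).2.trans_le ((hin q).2 l).2⟩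
  have ha0 : 0 ≤ (T q').lower i := ((hin q').2 i).1
  have ha1 : (T q').lower i < 1 := by
    have h2 := (hin q').1
    have h3 := ((hin q').2 i).2
    linarith
  obtain ⟨g, hgdef⟩ : ∃ g : Fin n → ℝ → ℝ, g = fun l z =>
    if l = i then (if z ∈ H ∧ z ≤ (T q').lower i then 1 else 0) else
      (if x l < z then 1 else 0) := ⟨_, rfl⟩
  have hgi : ∀ z, g i z = if z ∈ H ∧ z ≤ (T q').lower i then 1 else 0 := by
    intro z
    rw [hgdef]
    simp
  have hgl : ∀ l, l ≠ i → ∀ z, g l z = if x l < z then 1 else 0 := by
    intro l hl z
    rw [hgdef]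
    simp [hl]
  have hg := add_identity g
  have hR : ∏ l, (g l 1 - g l 0) = -1 := by
    rw [Finset.prod_eq_single i]
    · rw [hgi, hgi, if_neg (fun h => absurd h.2 (not_le.2 ha1)), if_pos ⟨H.zero_mem, ha0⟩]
      norm_num
    · intro l _ hl
      rw [hgl l hl, hgl l hl, if_pos (hx01 l).2, if_neg (not_lt.2 (hx01 l).1)]
      norm_num
    · intro h
      exact absurd (Finset.mem_univ i) h
  have hL : ∀ p, ∏ l, (g l ((T p).lower l + (T p).side) - g l ((T p).lower l)) = 0 := by
    intro p
    have hps := (hin p).1
    by_cases hp : ∀ l, l ≠ i → (T p).lower l ≤ x l ∧ x l < (T p).lower l + (T p).side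
    · apply Finset.prod_eq_zero (Finset.mem_univ i)
      rw [hgi, hgi]
      by_cases hs : (T p).side ∈ H
      · have hiff : (T p).lower i + (T p).side ∈ H ↔ (T p).lower i ∈ H := by
          constructor
          · intro h
            have := H.sub_mem h hs
            rwa [add_sub_cancel_right] at this
          · intro h
            exact H.add_mem h hs
        by_cases h2 : (T p).lower i + (T p).side ≤ (T q').lower i
        · have h3 : (T p).lower i ≤ (T q').lower i := by linarith
          by_cases h4 : (T p).lower i ∈ H
          · rw [if_pos ⟨hiff.2 h4, h2⟩, if_pos ⟨h4, h3⟩, sub_self]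
          · rw [if_neg (fun h => h4 (hiff.1 h.1)), if_neg (fun h => h4 h.1), sub_self]
        · by_cases h3 : (T p).lower i ≤ (T q').lower i
          · exfalso
            have hy : InUnit (Function.update x i ((T q').lower i)) := by
              intro l
              by_cases hl : l = i
              · subst hl
                rw [Function.update_self]
                exact ⟨ha0, ha1⟩
              · rw [Function.update_of_ne hl]
                exact hx01 l
            obtain ⟨w, _, hw⟩ := hT.2 _ hy
            have e1 := hw p (by
              intro l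
              by_cases hl : l = i
              · subst hl
                rw [Function.update_self]
                exact ⟨h3, not_le.1 h2⟩
              · rw [Function.update_of_ne hl]
                exact hp l hl)
            have e2 := hw q' (by
              intro l
              by_cases hl : l = i
              · subst hl
                rw [Function.update_self]
                exact ⟨le_rfl, by linarith [(hin q').1]⟩
              · rw [Function.update_of_ne hl]
                exact hq'l l hl)
            rw [e1, ← e2] at hs
            exact hq's hs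
          · rw [if_neg (fun h => h2 h.2), if_neg (fun h => h3 h.2), sub_self]
      · have h2 := hmin p (Finset.mem_filter.2 ⟨Finset.mem_univ _, hs, hp⟩)
        have h2' : (T q').lower i ≤ (T p).lower i := h2
        rw [if_neg (fun h => by linarith [h.2]), if_neg (fun h => ?_), sub_self]
        have h3 := le_antisymm h2' h.2
        rw [h3] at ha
        exact ha h.1
    · push Not at hp
      obtain ⟨l, hl, hl'⟩ := hp
      apply Finset.prod_eq_zero (Finset.mem_univ l)
      rw [hgl l hl, hgl l hl]
      by_cases h2 : (T p).lower l ≤ x l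
      · have h3 := hl' h2
        rw [if_neg (not_lt.2 h3), if_neg (not_lt.2 h2), sub_self]
      · push Not at h2
        rw [if_pos (by linarith), if_pos h2, sub_self]
  rw [hR, Finset.sum_eq_zero (fun p _ => hL p)] at hg
  norm_num at hg

end Pool.Agent.H274C
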