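import Mathlib
set_option autoImplicit false
namespace Pool.Agent.H274C

/-- the reals that are quotients `a / b` of integers with `b` prime to `p` -/
def Hp (p : ℕ) (hp : p.Prime) : AddSubgroup ℝ where
  carrier := {z | ∃ (a : ℤ) (b : ℕ), ¬ p ∣ b ∧ z = a / b}
  zero_mem' := by
    refine ⟨0, 1, ?_, by simp⟩
    intro h
    exact hp.one_lt.ne' (Nat.dvd_one.mp h)
  add_mem' := by
    rintro x y ⟨a, b, hb, rfl⟩ ⟨c, d, hd, rfl⟩
    have hb0 : (b : ℝ) ≠ 0 := by
      intro h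
      have : b = 0 := by exact_mod_cast h
      exact hb (this ▸ dvd_zero p)
    have hd0 : (d : ℝ) ≠ 0 := by
      intro h
      have : d = 0 := by exact_mod_cast h
      exact hd (this ▸ dvd_zero p)
    refine ⟨a * d + b * c, b * d, ?_, ?_⟩
    · intro h
      rcases hp.dvd_mul.mp h with h | h
      · exact hb h
      · exact hd h
    · push_cast
      field_simp
  neg_mem' := by
    rintro x ⟨a, b, hb, rfl⟩
    refine ⟨-a, b, hb, ?_⟩
    push_cast
    ring

theorem Hp_one (p : ℕ) (hp : p.Prime) : (1 : ℝ) ∈ Hp p hp := by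
  refine ⟨1, 1, ?_, by simp⟩
  intro h
  exact hp.one_lt.ne' (Nat.dvd_one.mp h)

theorem Hp_tf (p : ℕ) (hp : p.Prime) (z : ℝ) (m : ℕ) (hm : 0 < m) (hmp : m < p)
    (h : m • z ∈ Hp p hp) : z ∈ Hp p hp := by
  obtain ⟨a, b, hb, hab⟩ := h
  have hb0 : (b : ℝ) ≠ 0 := by
    intro h
    have : b = 0 := by exact_mod_cast h
    exact hb (this ▸ dvd_zero p)
  have hm0 : (m : ℝ) ≠ 0 := by exact_mod_cast hm.ne'
  refine ⟨a, m * b, ?_, ?_⟩
  · intro h
    rcases hp.dvd_mul.mp h with h | h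
    · exact absurd (Nat.le_of_dvd hm h) (not_le.mpr hmp)
    · exact hb h
  · rw [nsmul_eq_mul] at hab
    push_cast
    field_simp
    field_simp at hab
    linarith

/-- An element of `Hp` is rational and `p` does not divide its reduced denominator. -/
theorem Hp_rat (p : ℕ) (hp : p.Prime) (z : ℝ) (h : z ∈ Hp p hp) :
    ∃ r : ℚ, z = r ∧ ¬ p ∣ r.den := by
  obtain ⟨a, b, hb, rfl⟩ := h
  refine ⟨(a : ℚ) / (b : ℚ), by push_cast; rfl, ?_⟩
  intro h
  apply hb
  have h1 : (((a : ℚ) / (b : ℚ)).den : ℤ) ∣ (b : ℤ) := by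
    have := Rat.den_dvd a (b : ℤ)
    rw [Rat.divInt_eq_div] at this
    exact_mod_cast this
  have h2 : ((a : ℚ) / (b : ℚ)).den ∣ b := by exact_mod_cast h1
  exact h.trans h2

end Pool.Agent.H274C
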