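import Mathlib
set_option autoImplicit false
namespace Pool.Agent.H274C

/-- representation of increments of `g` on a finite set by point masses -/
theorem step_rep (P : Finset ℝ) (g : ℝ → ℝ) :
    ∃ c : ℝ → ℝ, ∀ a ∈ P, ∀ b ∈ P, a ≤ b →
      g b - g a = ∑ t ∈ P, if a ≤ t ∧ t < b then c t else 0 := by
  induction P using Finset.induction_on_max with
  | empty => exact ⟨0, by simp⟩
  | insert m P' hm ih =>
    obtain ⟨c', hc'⟩ := ih
    have hmP : m ∉ P' := fun h => lt_irrefl m (hm m h)
    rcases P'.eq_empty_or_nonempty with he | hne
    · subst he
      refine ⟨0, ?_⟩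
      intro a ha b hb hab
      simp at ha hb
      subst ha
      subst hb
      simp
    · set s := P'.max' hne with hs
      have hsP : s ∈ P' := P'.max'_mem hne
      have hsmax : ∀ t ∈ P', t ≤ s := fun t ht => P'.le_max' t ht
      have hsm : s < m := hm s hsP
      refine ⟨Function.update c' s (g m - g s), ?_⟩
      intro a ha b hb hab
      rw [Finset.sum_insert hmP]
      rw [Finset.mem_insert] at ha hb
      have hm0 : (if a ≤ m ∧ m < b then Function.update c' s (g m - g s) m else 0) = 0 := by
        rw [if_neg]
        rintro ⟨-, h2⟩
        rcases hb with rfl | hb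
        · exact lt_irrefl _ h2
        · exact lt_asymm h2 (hm b hb)
      rw [hm0, zero_add]
      rcases hb with rfl | hb
      · rcases ha with rfl | ha
        · rw [sub_self]
          symm
          refine Finset.sum_eq_zero fun t ht => ?_
          rw [if_neg]
          rintro ⟨h1, h2⟩
          exact lt_irrefl t (h2.trans_le h1)
        · have key : ∑ t ∈ P', (if a ≤ t ∧ t < b then Function.update c' s (g b - g s) t else 0) =
              ∑ t ∈ P', ((if a ≤ t ∧ t < s then c' t else 0) +
                (if t = s then g b - g s else 0)) := by
            refine Finset.sum_congr rfl fun t ht => ?_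
            rcases (hsmax t ht).eq_or_lt with h | h
            · rw [h, if_pos ⟨hsmax a ha, hsm⟩, Function.update_self, if_neg (fun h => lt_irrefl _ h.2),
                if_pos rfl, zero_add]
            · rw [if_neg h.ne, add_zero, Function.update_of_ne h.ne]
              by_cases hat : a ≤ t
              · rw [if_pos ⟨hat, h.trans hsm⟩, if_pos ⟨hat, h⟩]
              · rw [if_neg (fun h' => hat h'.1), if_neg (fun h' => hat h'.1)]
          rw [key, Finset.sum_add_distrib, ← hc' a ha s hsP (hsmax a ha), Finset.sum_ite_eq',
            if_pos hsP]
          ring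
      · rcases ha with rfl | ha
        · exact absurd hab (not_le.2 (hm b hb))
        · rw [hc' a ha b hb hab]
          refine Finset.sum_congr rfl fun t ht => ?_
          by_cases h : a ≤ t ∧ t < b
          · rw [if_pos h, if_pos h, Function.update_of_ne]
            intro h'
            exact absurd (h' ▸ h.2) (not_lt.2 (hsmax b hb))
          · rw [if_neg h, if_neg h]

end Pool.Agent.H274C
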