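import Mathlib
set_option autoImplicit false
open Classical
namespace Pool.Agent.H274C

theorem walk {n : ℕ} {G : Type} [AddCommGroup G] (ρ : Fin n → G) (σ : G) (J : ℕ) (hJ : 1 ≤ J)
    (hσ : ∀ m : ℕ, 0 < m → m < J → m • σ ≠ 0) (C : Finset G)
    (hC : ∀ j : ℕ, j ≤ J → j • σ ∈ C) :
    ((Finset.univ.filter (fun i => ρ i = 0)).card : ℝ) ≤ n / J +
      √(J * ∑ c ∈ C, (∑ i, ((if ρ i + σ = c then (1 : ℝ) else 0)
        - (if ρ i = c then (1 : ℝ) else 0))) ^ 2) := by
  obtain ⟨a, ha⟩ : ∃ a : G → ℝ, a = fun c => ((Finset.univ.filter (fun i => ρ i = c)).card : ℝ) :=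
    ⟨_, rfl⟩
  obtain ⟨D, hD⟩ : ∃ D : G → ℝ, D = fun c => ∑ i, ((if ρ i + σ = c then (1 : ℝ) else 0)
        - (if ρ i = c then (1 : ℝ) else 0)) := ⟨_, rfl⟩
  have hDa : ∀ c : G, D (c + σ) = a c - a (c + σ) := by
    intro c
    rw [hD, ha]
    dsimp only
    rw [Finset.sum_sub_distrib]
    simp only [Finset.sum_boole, add_left_inj]
  obtain ⟨E, hE⟩ : ∃ E, E = √(J * ∑ c ∈ C, (D c) ^ 2) := ⟨_, rfl⟩
  have hgoal : a 0 ≤ n / J + E := by
    have hJ0 : (0 : ℝ) < J := by exact_mod_cast (by omega : 0 < J)
    -- distinctness
    have hinj : ∀ m m' : ℕ, m ≤ J → m' ≤ J → m < m' → m' - m < J → m • σ ≠ m' • σ := by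
      intro m m' _ _ h1 h2 h3
      have h4 : (m' - m) • σ = 0 := by
        have h5 : m' • σ = m • σ + (m' - m) • σ := by
          rw [← add_smul]; congr 1; omega
        rw [h5] at h3
        have := (add_eq_left (a := m • σ) (b := (m' - m) • σ)).mp h3.symm
        exact this
      exact hσ (m' - m) (by omega) h2 h4
    have hinj0 : ∀ j : ℕ, j ≤ J → Set.InjOn (fun m : ℕ => (m + 1) • σ) (Finset.range (j - 1 + 1) : Set ℕ) → True := by
      intros; trivial
    have hstep : ∀ j : ℕ, j < J → a 0 - a (j • σ) ≤ E := by
      intro j hj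
      have h1 : ∀ q : ℕ, a 0 - a (q • σ) = ∑ m ∈ Finset.range q, D ((m + 1) • σ) := by
        intro q
        induction q with
        | zero => simp
        | succ q ih =>
          rw [Finset.sum_range_succ, ← ih]
          have : (q + 1) • σ = q • σ + σ := by rw [add_smul, one_smul]
          rw [this, hDa]
          ring
      rw [h1 j]
      have hcs := sq_sum_le_card_mul_sum_sq (s := Finset.range j) (f := fun m => D ((m + 1) • σ))
      have h2 : ∑ m ∈ Finset.range j, (D ((m + 1) • σ)) ^ 2 ≤ ∑ c ∈ C, (D c) ^ 2 := by
        have hI : Set.InjOn (fun m : ℕ => (m + 1) • σ) (Finset.range j : Set ℕ) := by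
          intro x hx y hy hxy
          simp only [Finset.coe_range, Set.mem_Iio] at hx hy
          by_contra hne
          rcases lt_or_gt_of_ne hne with h | h
          · exact hinj (x + 1) (y + 1) (by omega) (by omega) (by omega) (by omega) hxy
          · exact hinj (y + 1) (x + 1) (by omega) (by omega) (by omega) (by omega) hxy.symm
        have h3 : ∑ m ∈ Finset.range j, (D ((m + 1) • σ)) ^ 2
            = ∑ c ∈ (Finset.range j).image (fun m : ℕ => (m + 1) • σ), (D c) ^ 2 := by
          rw [Finset.sum_image hI]
        rw [h3]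
        apply Finset.sum_le_sum_of_subset_of_nonneg
        · intro c hc
          rw [Finset.mem_image] at hc
          obtain ⟨m, hm, rfl⟩ := hc
          rw [Finset.mem_range] at hm
          exact hC (m + 1) (by omega)
        · intro i _ _
          positivity
      have h4 : (∑ m ∈ Finset.range j, D ((m + 1) • σ)) ^ 2 ≤ J * ∑ c ∈ C, (D c) ^ 2 := by
        refine hcs.trans ?_
        rw [Finset.card_range]
        have h5 : (j : ℝ) ≤ J := by exact_mod_cast hj.le
        have h6 : 0 ≤ ∑ m ∈ Finset.range j, (D ((m + 1) • σ)) ^ 2 :=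
          Finset.sum_nonneg (fun _ _ => by positivity)
        exact mul_le_mul h5 h2 h6 hJ0.le
      rw [hE]
      exact (le_abs_self _).trans (Real.abs_le_sqrt h4)
    have hsum : ∑ j ∈ Finset.range J, a (j • σ) ≤ n := by
      have hI : Set.InjOn (fun m : ℕ => m • σ) (Finset.range J : Set ℕ) := by
        intro x hx y hy hxy
        simp only [Finset.coe_range, Set.mem_Iio] at hx hy
        by_contra hne
        rcases lt_or_gt_of_ne hne with h | h
        · exact hinj x y (by omega) (by omega) (by omega) (by omega) hxy
        · exact hinj y x (by omega) (by omega) (by omega) (by omega) hxy.symm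
      have h3 : ∑ j ∈ Finset.range J, a (j • σ)
            = ∑ c ∈ (Finset.range J).image (fun m : ℕ => m • σ), a c := by
          rw [Finset.sum_image hI]
      rw [h3, ha]
      dsimp only
      have h5 : ∑ c ∈ (Finset.range J).image (fun m : ℕ => m • σ),
          (Finset.univ.filter (fun i => ρ i = c)).card ≤ n := by
        have h6 := Finset.card_eq_sum_card_fiberwise (f := ρ)
          (s := Finset.univ.filter (fun i => ρ i ∈ (Finset.range J).image (fun m : ℕ => m • σ)))
          (t := (Finset.range J).image (fun m : ℕ => m • σ)) (by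
            intro i hi
            simpa using hi)
        have h7 : ∑ c ∈ (Finset.range J).image (fun m : ℕ => m • σ),
          (Finset.univ.filter (fun i => ρ i = c)).card
          = (Finset.univ.filter (fun i => ρ i ∈ (Finset.range J).image (fun m : ℕ => m • σ))).card := by
          rw [h6]
          apply Finset.sum_congr rfl
          intro c hc
          congr 1
          ext i
          simp only [Finset.mem_filter, Finset.mem_univ, true_and]
          constructor
          · intro h; exact ⟨by rw [h]; exact hc, h⟩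
          · intro h; exact h.2
        rw [h7]
        refine (Finset.card_le_univ _).trans ?_
        simp
      exact_mod_cast h5
    have hlow : ∑ j ∈ Finset.range J, (a 0 - E) ≤ ∑ j ∈ Finset.range J, a (j • σ) := by
      apply Finset.sum_le_sum
      intro j hj
      rw [Finset.mem_range] at hj
      linarith [hstep j hj]
    rw [Finset.sum_const, Finset.card_range, nsmul_eq_mul] at hlow
    have h8 : a 0 - E ≤ n / J := by
      rw [le_div_iff₀ hJ0]
      linarith
    linarith
  rw [hE, hD, ha] at hgoal
  exact hgoal

end Pool.Agent.H274C
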