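import Mathlib
import Pool.Prelude.Def_F_cef2bd1b
import Pool.Agent.Helper274.CT.StepRep
import Pool.Agent.Helper274.CT.AddId
import Pool.Agent.Helper274.CT.Finner
import Pool.Agent.Helper274.CT.Loomis
import Pool.Agent.Helper274.CT.FirstCube
import Pool.Agent.Helper274.CT.SecondMoment
import Pool.Agent.Helper274.CT.Walk
import Pool.Agent.Helper274.CT.Bounds
import Pool.Agent.Helper274.CT.Core
import Pool.Agent.Helper274.CT.Hp
import Pool.Agent.Helper274.CT.CountMod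
set_option autoImplicit false
open N0a8789b9
namespace Pool.Agent.H274C

theorem addId {n k : ℕ} (T : Fin k → Cube n) (hT : IsTiling T) (g : Fin n → ℝ → ℝ) :
    ∑ q, ∏ i, (g i ((T q).lower i + (T q).side) - g i ((T q).lower i))
      = ∏ i, (g i 1 - g i 0) :=
  add_identity step_rep T hT g

theorem sides_mem {n k : ℕ} (hn : 2 ≤ n) (T : Fin k → Cube n) (hT : IsTiling T)
    (H : AddSubgroup ℝ) (h1 : (1 : ℝ) ∈ H)
    (K : ℝ) (hK : 1 ≤ K) (hk : (k : ℝ) ≤ K ^ n) (J : ℕ) (hJ : 8 * K ^ 2 < J)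
    (hnJ : 64 * K ^ 4 * J ≤ n)
    (hH : ∀ z : ℝ, ∀ m : ℕ, 0 < m → m < J → m • z ∈ H → z ∈ H) :
    ∀ q, (T q).side ∈ H :=
  core hn T hT H h1
    (fun S B hB => loomis hn (fun f hf hi => finner hn f hf hi) T hT S B hB)
    (fun i q hq x hx => first_cube T hT (addId T hT) H h1 i q hq x hx)
    (fun C => second_moment hn T hT (addId T hT) H h1 C)
    (fun ρ σ J h h2 C hC => walk ρ σ J h h2 C hC)
    (fun S s hs M hM hMex K hK hc => N_bounds S s hs M hM hMex K hK n hn hc)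
    (fun N hN m hm hLW R hR hNR => lower_bound hn N hN m hm hLW R hR hNR)
    K hK hk J hJ hnJ hH

theorem sum_pow {n k : ℕ} (T : Fin k → Cube n) (hT : IsTiling T) :
    ∑ q, (T q).side ^ n = 1 := by
  have h := addId T hT (fun _ z => z)
  simpa using h

/-- **Rigidity.** A prime above `8 K ^ 2` does not divide any denominator of a side of a
decomposition of the unit `n`-cube in at most `K ^ n` cubes, if `n ≥ 576 K ^ 6`. -/
theorem rigidity {n k K : ℕ} (hK : 1 ≤ K) (hn : 576 * K ^ 6 ≤ n) (hk : k ≤ K ^ n)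
    (T : Fin k → Cube n) (hT : IsTiling T) (p : ℕ) (hp : p.Prime) (hpK : 8 * K ^ 2 < p) :
    ∀ q, (T q).side ∈ Hp p hp := by
  have hK6 : 1 ≤ K ^ 6 := Nat.one_le_pow _ _ hK
  have hn2 : 2 ≤ n := by omega
  have hKr : (1 : ℝ) ≤ K := by exact_mod_cast hK
  refine sides_mem hn2 T hT (Hp p hp) (Hp_one p hp) K hKr (by exact_mod_cast hk)
    (8 * K ^ 2 + 1) (by push_cast; linarith) ?_ ?_
  · have h1 : (576 : ℝ) * K ^ 6 ≤ n := by exact_mod_cast hn
    have h2 : (K : ℝ) ^ 4 ≤ K ^ 6 := pow_le_pow_right₀ hKr (by norm_num)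
    push_cast
    nlinarith
  · intro z m hm hmJ h
    exact Hp_tf p hp z m hm (by omega) h

theorem side_rat {n k K : ℕ} (hK : 1 ≤ K) (hn : 576 * K ^ 6 ≤ n) (hk : k ≤ K ^ n)
    (T : Fin k → Cube n) (hT : IsTiling T) :
    ∀ q, ∃ r : ℚ, (T q).side = r ∧ ∀ p : ℕ, p.Prime → 8 * K ^ 2 < p → ¬ p ∣ r.den := by
  intro q
  obtain ⟨p0, hp0, hp0p⟩ := Nat.exists_infinite_primes (8 * K ^ 2 + 1)
  obtain ⟨r, hr, _⟩ := Hp_rat p0 hp0p _ (rigidity hK hn hk T hT p0 hp0p (by omega) q)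
  refine ⟨r, hr, ?_⟩
  intro p hp hpK
  obtain ⟨r', hr', hd⟩ := Hp_rat p hp _ (rigidity hK hn hk T hT p hp hpK q)
  have : r = r' := by
    have h := hr.symm.trans hr'
    exact_mod_cast h
  rwa [this]

/-- the number of cubes whose side has numerator prime to `p` is `1` modulo `p` -/
theorem count_one {n k K : ℕ} (hK : 1 ≤ K) (hn : 576 * K ^ 6 ≤ n) (hk : k ≤ K ^ n)
    (T : Fin k → Cube n) (hT : IsTiling T) (p : ℕ) (hp : p.Prime) (hpK : 8 * K ^ 2 < p)
    (hpn : (p - 1) ∣ n) (s : Fin k → ℚ) (hs : ∀ q, (T q).side = s q) :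
    (Finset.univ.filter (fun q => ¬ (p : ℤ) ∣ (s q).num)).card ≡ 1 [MOD p] := by
  have hK6 : 1 ≤ K ^ 6 := Nat.one_le_pow _ _ hK
  refine count_mod s p n hp (by omega) hpn ?_ ?_
  · have h := sum_pow T hT
    simp only [hs] at h
    exact_mod_cast h
  · intro q
    obtain ⟨r', hr', hd⟩ := Hp_rat p hp _ (rigidity hK hn hk T hT p hp hpK q)
    have : s q = r' := by
      have h := (hs q).symm.trans hr'
      exact_mod_cast h
    rwa [this]

end Pool.Agent.H274C
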