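import Mathlib
import Pool.Prelude.Def_F_cef2bd1b
import Pool.Agent.Helper274.CT.BoxDef
set_option autoImplicit false
open N0a8789b9
namespace Pool.Agent.H274C

theorem section_box {N k : ℕ} (a b : Fin (N + 1) → ℝ) (T : Fin k → Cube (N + 1))
    (hT1 : ∀ q, 0 < (T q).side ∧ ∀ j, a j ≤ (T q).lower j ∧ (T q).lower j + (T q).side ≤ b j)
    (hT2 : ∀ x : Fin (N + 1) → ℝ, (∀ j, a j ≤ x j ∧ x j < b j) → ∃! q, (T q).Mem x)
    (i : Fin (N + 1)) (c : ℝ) (hc : a i ≤ c ∧ c < b i) :
    ∃ (k' : ℕ) (e : Fin k' → Fin k), k' ≤ k ∧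
      BoxTiling (fun j : Fin N => b (i.succAbove j) - a (i.succAbove j))
        (fun q => (⟨fun j => (T (e q)).lower (i.succAbove j) - a (i.succAbove j),
          (T (e q)).side⟩ : Cube N)) ∧
      ∀ q, ((T q).lower i ≤ c ∧ c < (T q).lower i + (T q).side) → ∃ q', e q' = q := by
  classical
  set S : Finset (Fin k) :=
    Finset.univ.filter (fun q => (T q).lower i ≤ c ∧ c < (T q).lower i + (T q).side) with hS
  have hSmem : ∀ q, q ∈ S ↔ ((T q).lower i ≤ c ∧ c < (T q).lower i + (T q).side) := by
    intro q
    rw [hS]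
    simp
  let E : Fin S.card ≃ S := S.equivFin.symm
  have key : ∀ (q : Fin k) (y : Fin N → ℝ), q ∈ S →
      ((T q).Mem (Fin.insertNth i c (fun j => y j + a (i.succAbove j))) ↔
        (⟨fun j => (T q).lower (i.succAbove j) - a (i.succAbove j), (T q).side⟩ : Cube N).Mem y) := by
    intro q y hq
    have hq' := (hSmem q).1 hq
    constructor
    · intro h j
      have h1 := h (i.succAbove j)
      rw [Fin.insertNth_apply_succAbove] at h1
      constructor
      · show (T q).lower (i.succAbove j) - a (i.succAbove j) ≤ y j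
        linarith [h1.1]
      · show y j < (T q).lower (i.succAbove j) - a (i.succAbove j) + (T q).side
        linarith [h1.2]
    · intro h j
      refine Fin.succAboveCases i ?_ ?_ j
      · rw [Fin.insertNth_apply_same]
        exact hq'
      · intro j
        rw [Fin.insertNth_apply_succAbove]
        have h1 := h j
        have h2 : (T q).lower (i.succAbove j) - a (i.succAbove j) ≤ y j := h1.1
        have h3 : y j < (T q).lower (i.succAbove j) - a (i.succAbove j) + (T q).side := h1.2
        constructor <;> linarith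
  refine ⟨S.card, fun q => (E q : Fin k), ?_, ⟨?_, ?_⟩, ?_⟩
  · calc S.card ≤ (Finset.univ : Finset (Fin k)).card := Finset.card_le_univ S
      _ = k := by rw [Finset.card_univ, Fintype.card_fin]
  · intro q
    refine ⟨(hT1 _).1, fun j => ?_⟩
    have h1 := (hT1 (E q : Fin k)).2 (i.succAbove j)
    constructor
    · show 0 ≤ (T (E q : Fin k)).lower (i.succAbove j) - a (i.succAbove j)
      linarith [h1.1]
    · show (T (E q : Fin k)).lower (i.succAbove j) - a (i.succAbove j) + (T (E q : Fin k)).side ≤
        b (i.succAbove j) - a (i.succAbove j)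
      linarith [h1.2]
  · intro y hy
    have hx : ∀ j, a j ≤ (Fin.insertNth (α := fun _ => ℝ) i c (fun j => y j + a (i.succAbove j))) j ∧
        (Fin.insertNth (α := fun _ => ℝ) i c (fun j => y j + a (i.succAbove j))) j < b j := by
      intro j
      refine Fin.succAboveCases i ?_ ?_ j
      · rw [Fin.insertNth_apply_same]
        exact hc
      · intro j
        rw [Fin.insertNth_apply_succAbove]
        have h1 := hy j
        constructor <;> linarith [h1.1, h1.2]
    obtain ⟨q, hq, huniq⟩ := hT2 _ hx
    have hqS : q ∈ S := by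
      rw [hSmem]
      have h1 := hq i
      rw [Fin.insertNth_apply_same] at h1
      exact h1
    refine ⟨E.symm ⟨q, hqS⟩, ?_, ?_⟩
    · have e1 : (E (E.symm ⟨q, hqS⟩) : Fin k) = q := by
        rw [Equiv.apply_symm_apply]
      have h2 := (key q y hqS).1 hq
      simp only [e1]
      exact h2
    · intro q' hq'
      have h3 : (T (E q' : Fin k)).Mem (Fin.insertNth i c (fun j => y j + a (i.succAbove j))) :=
        (key (E q' : Fin k) y (E q').2).2 hq'
      have h4 := huniq _ h3
      rw [Equiv.eq_symm_apply]
      exact Subtype.ext h4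
  · intro q hq
    have hqS := (hSmem q).2 hq
    refine ⟨E.symm ⟨q, hqS⟩, ?_⟩
    show ((E (E.symm ⟨q, hqS⟩) : S) : Fin k) = q
    rw [Equiv.apply_symm_apply]

end Pool.Agent.H274C
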