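import Mathlib
import Pool.Prelude.Def_F_cef2bd1b
import Pool.Agent.Helper274.CT.BoxDef
import Pool.Agent.Helper274.CT.StepRep
import Pool.Agent.Helper274.CT.AddIdBox
import Pool.Agent.Helper274.CT.Finner
import Pool.Agent.Helper274.CT.LoomisBox
import Pool.Agent.Helper274.CT.FirstCubeBox
import Pool.Agent.Helper274.CT.SecondMomentBox
import Pool.Agent.Helper274.CT.Walk
import Pool.Agent.Helper274.CT.Bounds
import Pool.Agent.Helper274.CT.CoreBox
import Pool.Agent.Helper274.CT.GuilTiling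
import Pool.Agent.Helper274.CT.SectionBox
import Pool.Agent.Helper274.CT.GuilReplace
import Pool.Agent.Helper274.CT.GuilH
import Pool.Agent.Helper274.CT.Main
set_option autoImplicit false
open N0a8789b9
namespace Pool.Agent.H274C

/-- **Box version.** If all widths of a box lie in a subgroup `H` of `ℝ` with no small torsion in
`ℝ ⧸ H`, then so do the sides of all cubes of a decomposition into at most `K ^ n` cubes. -/
theorem sides_mem_box {n k : ℕ} (hn : 2 ≤ n) (D : Fin n → ℝ) (hD : ∀ j, 0 < D j)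
    (T : Fin k → Cube n) (hT : BoxTiling D T) (H : AddSubgroup ℝ) (hDH : ∀ j, D j ∈ H)
    (K : ℝ) (hK : 1 ≤ K) (hk : (k : ℝ) ≤ K ^ n) (J : ℕ) (hJ : 8 * K ^ 2 < J)
    (hnJ : 64 * K ^ 4 * J ≤ n)
    (hH : ∀ z : ℝ, ∀ m : ℕ, 0 < m → m < J → m • z ∈ H → z ∈ H) :
    ∀ q, (T q).side ∈ H :=
  core_box hn T (fun q => (hT.1 q).1) H
    (fun S B hB => loomis_box hn (fun f hf hi => finner hn f hf hi) D T hT S B hB)
    (fun i q hq x hx => first_cube_box D T hT (add_identity_box step_rep D hD T hT) H i q hq x hx)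
    (fun C => second_moment_box hn D T hT (add_identity_box step_rep D hD T hT) H hDH C)
    (fun ρ σ J h h2 C hC => walk ρ σ J h h2 C hC)
    (fun S s hs M hM hMex K hK hc => N_bounds S s hs M hM hMex K hK n hn hc)
    (fun N hN m hm hLW R hR hNR => lower_bound hn N hN m hm hLW R hR hNR)
    K hK hk J hJ hnJ hH

/-- the multiples by `p` of the elements of `Hp p` -/
def pHp (p : ℕ) (hp : p.Prime) : AddSubgroup ℝ :=
  (Hp p hp).map (AddMonoidHom.mulLeft (p : ℝ))

theorem mem_pHp (p : ℕ) (hp : p.Prime) (z : ℝ) :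
    z ∈ pHp p hp ↔ ∃ y ∈ Hp p hp, (p : ℝ) * y = z := by
  unfold pHp
  rw [AddSubgroup.mem_map]
  rfl

theorem one_notMem_pHp (p : ℕ) (hp : p.Prime) : (1 : ℝ) ∉ pHp p hp := by
  rw [mem_pHp]
  rintro ⟨y, ⟨a, b, hb, rfl⟩, h⟩
  have hb0 : (b : ℝ) ≠ 0 := by
    intro h
    have : b = 0 := by exact_mod_cast h
    exact hb (this ▸ dvd_zero p)
  apply hb
  have h1 : (p : ℝ) * a = b := by
    field_simp at h
    linarith
  have h2 : (p : ℤ) * a = b := by exact_mod_cast h1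
  have h3 : (p : ℤ) ∣ (b : ℤ) := ⟨a, h2.symm⟩
  exact_mod_cast h3

theorem pHp_tf (p : ℕ) (hp : p.Prime) (z : ℝ) (m : ℕ) (hm : 0 < m) (hmp : m < p)
    (h : m • z ∈ pHp p hp) : z ∈ pHp p hp := by
  rw [mem_pHp] at h ⊢
  obtain ⟨y, hy, hyz⟩ := h
  have hp0 : (p : ℝ) ≠ 0 := by exact_mod_cast hp.ne_zero
  refine ⟨z / p, ?_, by field_simp⟩
  apply Hp_tf p hp _ m hm hmp
  have : m • (z / p) = y := by
    rw [nsmul_eq_mul] at hyz ⊢
    field_simp
    linarith
  rw [this]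
  exact hy

theorem mem_pHp_of_dvd (p : ℕ) (hp : p.Prime) (r : ℚ) (hd : ¬ p ∣ r.den)
    (hn : (p : ℤ) ∣ r.num) : (r : ℝ) ∈ pHp p hp := by
  rw [mem_pHp]
  obtain ⟨a, ha⟩ := hn
  refine ⟨(a : ℝ) / r.den, ⟨a, r.den, hd, rfl⟩, ?_⟩
  conv_rhs => rw [← Rat.num_div_den r, ha]
  push_cast
  ring

/-- no side of a guillotine decomposition lies in `pHp p` -/
theorem guil_notMem {N K : ℕ} (hK : 1 ≤ K) (hn : 34000 * K ^ 6 ≤ N + 1)
    (L : List (Cube (N + 1))) (hL : Guillotine (fun _ => 0) (fun _ => 1) L)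
    (hk : L.length ≤ K ^ (N + 1)) (p : ℕ) (hp : p.Prime) (hpK : 32 * K ^ 2 < p) :
    ∀ Q ∈ L, Q.side ∉ pHp p hp := by
  intro Q hQ hside
  have hK6 : 1 ≤ K ^ 6 := Nat.one_le_pow _ _ hK
  have hKK : K ≤ K ^ 6 := Nat.le_self_pow (by norm_num) K
  have hKr : (1 : ℝ) ≤ K := by exact_mod_cast hK
  have hN2 : 2 ≤ N := by omega
  have h := guillotine_H (pHp p hp) (K ^ (N + 1)) (fun h => guillotine_tiling h)
    (fun h => guillotine_lt h) (fun a b T h1 h2 i c hc => section_box a b T h1 h2 i c hc)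
    (by
      intro k D T hk hD hT hDH
      refine sides_mem_box hN2 D hD T hT (pHp p hp) hDH (2 * K) (by linarith) ?_
        (32 * K ^ 2 + 1) (by push_cast; nlinarith) ?_ ?_
      · have h1 : k ≤ (2 * K) ^ N := by
          calc k ≤ K ^ (N + 1) := hk
            _ = K * K ^ N := by rw [pow_succ]; ring
            _ ≤ 2 ^ N * K ^ N := by
                apply Nat.mul_le_mul_right
                have : N < 2 ^ N := Nat.lt_two_pow_self
                omega
            _ = (2 * K) ^ N := by rw [mul_pow]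
        exact_mod_cast h1
      · have h1 : (34000 : ℝ) * K ^ 6 ≤ N + 1 := by exact_mod_cast hn
        have h2 : (K : ℝ) ^ 4 ≤ K ^ 6 := pow_le_pow_right₀ hKr (by norm_num)
        have h3 : (1 : ℝ) ≤ K ^ 6 := one_le_pow₀ hKr
        push_cast
        nlinarith
      · intro z m hm hmJ h
        exact pHp_tf p hp z m hm (by omega) h)
    hL hk ⟨Q, hQ, hside⟩
  have h1 := h.1 0
  simp only [sub_zero] at h1
  exact one_notMem_pHp p hp h1

/-- a guillotine decomposition of the unit cube is a decomposition of the unit cube -/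
theorem guil_isTiling {n : ℕ} {L : List (Cube n)} (hL : Guillotine (fun _ => 0) (fun _ => 1) L) :
    IsTiling L.get := by
  obtain ⟨h1, h2⟩ := guillotine_tiling hL
  refine ⟨fun i => ?_, fun x hx => h2 x hx⟩
  obtain ⟨h3, h4⟩ := h1 (L.get i) (List.get_mem L i)
  exact ⟨h3, h4⟩

/-- **Rigidity of guillotine decompositions.** -/
theorem guil_rigid {n K : ℕ} (hK : 1 ≤ K) (hn : 34000 * K ^ 6 ≤ n)
    (L : List (Cube n)) (hL : Guillotine (fun _ => 0) (fun _ => 1) L)
    (hk : L.length ≤ K ^ n) (p : ℕ) (hp : p.Prime) (hpK : 32 * K ^ 2 < p) (i : Fin L.length) :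
    ∃ r : ℚ, (L.get i).side = r ∧ ¬ p ∣ r.den ∧ ¬ (p : ℤ) ∣ r.num := by
  have hK6 : 1 ≤ K ^ 6 := Nat.one_le_pow _ _ hK
  obtain ⟨N, rfl⟩ : ∃ N, n = N + 1 := ⟨n - 1, by omega⟩
  obtain ⟨r, hr, hd⟩ := Hp_rat p hp _ (rigidity hK (by omega) hk L.get (guil_isTiling hL) p hp
    (by omega) i)
  refine ⟨r, hr, hd, fun hnum => ?_⟩
  apply guil_notMem hK hn L hL hk p hp hpK (L.get i) (List.get_mem L i)
  rw [hr]
  exact mem_pHp_of_dvd p hp r hd hnum

/-- **Counting.** -/
theorem guil_count {n K : ℕ} (hK : 1 ≤ K) (hn : 34000 * K ^ 6 ≤ n)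
    (L : List (Cube n)) (hL : Guillotine (fun _ => 0) (fun _ => 1) L)
    (hk : L.length ≤ K ^ n) (p : ℕ) (hp : p.Prime) (hpK : 32 * K ^ 2 < p)
    (hpn : (p - 1) ∣ n) : L.length ≡ 1 [MOD p] := by
  choose s hs hd hnum using fun i => guil_rigid hK hn L hL hk p hp hpK i
  have h := count_one hK (by omega) hk L.get (guil_isTiling hL) p hp (by omega) hpn s hs
  rw [Finset.filter_true_of_mem (fun q _ => hnum q)] at h
  simpa using h

end Pool.Agent.H274C
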