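import Mathlib
set_option autoImplicit false
namespace Pool.Agent.H274C

/-- the number of terms whose numerator is prime to `p` is `1` modulo `p` -/
theorem count_mod {ι : Type} [Fintype ι] (s : ι → ℚ) (p n : ℕ) (hp : p.Prime) (hn : 0 < n)
    (hpn : (p - 1) ∣ n) (hsum : ∑ q, s q ^ n = 1) (hden : ∀ q, ¬ p ∣ (s q).den) :
    (Finset.univ.filter (fun q => ¬ (p : ℤ) ∣ (s q).num)).card ≡ 1 [MOD p] := by
  classical
  haveI := Fact.mk hp
  have hpow : ∀ a : ZMod p, a ≠ 0 → a ^ n = 1 := by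
    obtain ⟨c, rfl⟩ := hpn
    intro a ha
    rw [pow_mul, ZMod.pow_card_sub_one_eq_one ha, one_pow]
  have h0 : (0 : ZMod p) ^ n = 0 := zero_pow hn.ne'
  set D : ℤ := ∏ q, ((s q).den : ℤ) with hD
  set x : ι → ℤ := fun q => (∏ r ∈ Finset.univ.erase q, ((s r).den : ℤ)) * (s q).num with hx
  have hxq : ∀ q, (D : ℚ) * s q = x q := by
    intro q
    have h1 : D = ((s q).den : ℤ) * ∏ r ∈ Finset.univ.erase q, ((s r).den : ℤ) := by
      exact (Finset.mul_prod_erase Finset.univ (fun r => ((s r).den : ℤ)) (Finset.mem_univ q)).symm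
    rw [h1, hx]
    have h2 : ((s q).den : ℚ) * s q = (s q).num := Rat.den_mul_eq_num (s q)
    push_cast
    rw [← h2]
    ring
  have hint : D ^ n = ∑ q, x q ^ n := by
    have : (D : ℚ) ^ n = ∑ q, (x q : ℚ) ^ n := by
      calc (D : ℚ) ^ n = (D : ℚ) ^ n * ∑ q, s q ^ n := by rw [hsum, mul_one]
        _ = ∑ q, (D : ℚ) ^ n * s q ^ n := by rw [Finset.mul_sum]
        _ = ∑ q, (x q : ℚ) ^ n := by
            refine Finset.sum_congr rfl fun q _ => ?_
            rw [← mul_pow, hxq]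
    exact_mod_cast this
  have hdz : ∀ q, (((s q).den : ℤ) : ZMod p) ≠ 0 := by
    intro q h
    apply hden q
    have h' : (((s q).den : ℕ) : ZMod p) = 0 := by exact_mod_cast h
    exact (ZMod.natCast_eq_zero_iff _ _).1 h'
  have hDz : (D : ZMod p) ≠ 0 := by
    rw [hD]
    push_cast
    refine Finset.prod_ne_zero_iff.2 fun q _ => ?_
    have := hdz q
    exact_mod_cast this
  have hz : ((D ^ n : ℤ) : ZMod p) = ((∑ q, x q ^ n : ℤ) : ZMod p) := by rw [hint]
  push_cast at hz
  rw [hpow _ hDz] at hz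
  have hterm : ∀ q, ((x q : ℤ) : ZMod p) ^ n = if ¬ (p : ℤ) ∣ (s q).num then 1 else 0 := by
    intro q
    by_cases h : (p : ℤ) ∣ (s q).num
    · rw [if_neg (not_not.2 h)]
      have h3 : (((s q).num : ℤ) : ZMod p) = 0 := (ZMod.intCast_zmod_eq_zero_iff_dvd _ _).2 h
      rw [hx]
      push_cast
      rw [h3, mul_zero, h0]
    · rw [if_pos h]
      apply hpow
      rw [hx]
      push_cast
      refine mul_ne_zero ?_ ?_
      · refine Finset.prod_ne_zero_iff.2 fun r _ => ?_
        have := hdz r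
        exact_mod_cast this
      · intro h3
        exact h ((ZMod.intCast_zmod_eq_zero_iff_dvd _ _).1 h3)
  have hc : ((Finset.univ.filter (fun q => ¬ (p : ℤ) ∣ (s q).num)).card : ZMod p) = 1 := by
    rw [hz, Finset.card_filter]
    push_cast
    refine Finset.sum_congr rfl fun q _ => ?_
    rw [hterm q]
  have := (ZMod.natCast_eq_natCast_iff ((Finset.univ.filter (fun q => ¬ (p : ℤ) ∣ (s q).num)).card) 1 p).1 (by rw [hc]; simp)
  exact this

end Pool.Agent.H274C
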