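import Mathlib
import Pool.Prelude.Def_F_cef2bd1b
import Pool.Agent.H17HN.Tiling
import Pool.Agent.Helper274.CT.BoxMain

set_option autoImplicit false

/-!
The cutoff for guillotine decompositions of the unit cube.
-/

open Finset N0a8789b9 Pool.Agent.H17HN

namespace Pool.Agent.H274C

/-- the unit `n`-cube has a guillotine decomposition into `k` cubes -/
def GAdmissible (n k : ℕ) : Prop :=
  ∃ L : List (Cube n), Guillotine (fun _ => 0) (fun _ => 1) L ∧ L.length = k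

/-- the guillotine cutoff -/
def IsGCutoff (n c : ℕ) : Prop :=
  (∀ k, c ≤ k → GAdmissible n k) ∧ (c = 0 ∨ ¬GAdmissible n (c - 1))

theorem gadm_one {n : ℕ} : GAdmissible n 1 := by
  refine ⟨[⟨fun _ => 0, 1⟩], ?_, rfl⟩
  have h := Guillotine.cube (fun _ : Fin n => (0 : ℝ)) 1 one_pos
  simpa using h

theorem gadm_subdivide {n k : ℕ} (a : ℕ) (ha : 1 ≤ a) (h : GAdmissible n k) :
    GAdmissible n (k + (a ^ n - 1)) := by
  obtain ⟨L, hL, hk⟩ := h
  obtain ⟨L', hL', hk'⟩ := guillotine_replace (fun a t ht m hm => guillotine_grid a t ht m hm)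
    hL a ha
  exact ⟨L', hL', by rw [hk', hk]⟩

theorem gadm_of_mem {n A : ℕ} (g : ℕ) (hg : g ∈ AddSubmonoid.closure (gens n A)) :
    ∀ k : ℕ, GAdmissible n k → GAdmissible n (k + g) := by
  induction hg using AddSubmonoid.closure_induction with
  | mem s hs =>
    obtain ⟨a, ha, _, rfl⟩ := hs
    intro k hk
    exact gadm_subdivide a (by omega) hk
  | zero => intro k hk; exact hk
  | add x y _ _ hx hy =>
    intro k hk
    have h1 := hx k hk
    have h3 := hy (k + x) h1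
    rwa [add_assoc] at h3

theorem gadm_large {n A : ℕ} (hn : 1 ≤ n) (hA : 2 ≤ A) (hg : gg n A = 1) (k : ℕ)
    (hk : (2 * A) ^ n ≤ k) : GAdmissible n k := by
  have hgcd : Nat.setGcd (gens n A) = 1 := by
    apply Nat.dvd_one.mp
    rw [← hg]
    unfold gg
    rw [Finset.dvd_gcd_iff]
    intro a ha
    rw [Finset.mem_Icc] at ha
    exact Nat.setGcd_dvd_of_mem ⟨a, ha.1, ha.2, rfl⟩
  have h2n : 2 ≤ 2 ^ n := by
    calc 2 = 2 ^ 1 := by norm_num
      _ ≤ 2 ^ n := Nat.pow_le_pow_right (by norm_num) hn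
  have hAn : 1 ≤ A ^ n := Nat.one_le_pow _ _ (by omega)
  have hmem : ∀ N, (2 ^ n - 1) * (A ^ n - 1) ≤ N → N ∈ AddSubmonoid.closure (gens n A) := by
    intro N hN
    refine frob_bound hgcd (m := 2 ^ n - 1) (M := A ^ n - 1) (by omega) ⟨2, le_refl _, hA, rfl⟩ ?_ N hN
    rintro s ⟨a, _, haA, rfl⟩
    exact Nat.sub_le_sub_right (Nat.pow_le_pow_left haA n) 1
  have h1 : (2 ^ n - 1) * (A ^ n - 1) + 1 ≤ (2 * A) ^ n := by
    rw [mul_pow]
    obtain ⟨u, hu⟩ : ∃ u, 2 ^ n = u + 1 := ⟨2 ^ n - 1, by omega⟩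
    obtain ⟨w, hw⟩ : ∃ w, A ^ n = w + 1 := ⟨A ^ n - 1, by omega⟩
    rw [hu, hw]
    simp only [Nat.add_sub_cancel]
    nlinarith
  have hb : (2 ^ n - 1) * (A ^ n - 1) ≤ k - 1 := by omega
  have h2 := gadm_of_mem (k - 1) (hmem _ hb) 1 gadm_one
  have hpos : 1 ≤ (2 * A) ^ n := Nat.one_le_pow _ _ (by omega)
  have h3 : 1 + (k - 1) = k := by omega
  rwa [h3] at h2

theorem gcutoff_le {n A c : ℕ} (hn : 1 ≤ n) (hA : 2 ≤ A) (hg : gg n A = 1)
    (hc : IsGCutoff n c) : c ≤ (2 * A) ^ n := by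
  by_contra hlt
  rw [not_le] at hlt
  rcases hc.2 with h0 | hna
  · omega
  · exact hna (gadm_large hn hA hg (c - 1) (by omega))

theorem gcutoff_pos {n c : ℕ} (hc : IsGCutoff n c) : 1 ≤ c := by
  by_contra h
  have h0 : c = 0 := by omega
  obtain ⟨L, hL, hk⟩ := hc.1 0 (by omega)
  exact (guillotine_lt hL).2 (List.length_eq_zero_iff.mp hk)

/-- the guillotine cutoff exists -/
theorem exists_gcutoff {n : ℕ} (hn : 1 ≤ n) : ∃ c, IsGCutoff n c := by
  classical
  obtain ⟨C, hC3, hC⟩ := gg_eq_one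
  obtain ⟨A, hA⟩ := exists_nat_gt (max (C * √(n : ℝ)) (max (PP n : ℝ) 2))
  have hA1 : C * √(n : ℝ) < A := lt_of_le_of_lt (le_max_left _ _) hA
  have hA2 : (PP n : ℝ) < A := lt_of_le_of_lt ((le_max_left _ _).trans (le_max_right _ _)) hA
  have hA3 : (2 : ℝ) < A := lt_of_le_of_lt ((le_max_right _ _).trans (le_max_right _ _)) hA
  have hA2' : PP n ≤ A := by exact_mod_cast hA2.le
  have hA3' : 2 ≤ A := by exact_mod_cast hA3.le
  have hg := hC n hn A hA2' hA1
  have hex : ∃ c : ℕ, ∀ k, c ≤ k → GAdmissible n k := ⟨(2 * A) ^ n, fun k hk =>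
    gadm_large hn hA3' hg k hk⟩
  refine ⟨Nat.find hex, Nat.find_spec hex, ?_⟩
  by_cases h0 : Nat.find hex = 0
  · exact Or.inl h0
  · right
    intro hadm
    refine Nat.find_min hex (m := Nat.find hex - 1) (by omega) ?_
    intro k hk
    rcases Nat.lt_or_ge k (Nat.find hex) with h | h
    · have : k = Nat.find hex - 1 := by omega
      rw [this]
      exact hadm
    · exact Nat.find_spec hex k h

end Pool.Agent.H274C
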