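import Mathlib
import Pool.Prelude.Def_F_cef2bd1b
import Pool.Agent.Helper274.CT.BoxMain
import Pool.Agent.Helper274.CT.GuilModel
set_option autoImplicit false
open N0a8789b9 Pool.Agent.H17HN
namespace Pool.Agent.H274C

/-- the half-open cubes of the list `L` lie in the box `∏ [a j, b j)` and partition it -/
def ListTiling {n : ℕ} (a b : Fin n → ℝ) (L : List (Cube n)) : Prop :=
  (∀ j, a j < b j) ∧
  (∀ Q ∈ L, 0 < Q.side ∧ ∀ j, a j ≤ Q.lower j ∧ Q.lower j + Q.side ≤ b j) ∧
  (∀ x : Fin n → ℝ, (∀ j, a j ≤ x j ∧ x j < b j) → ∃! i : Fin L.length, (L.get i).Mem x)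

/-- Good decompositions of boxes into cubes: a single cube; a decomposition (of any shape) in
which no cube has a rational side with reduced numerator divisible by `n + 1`; and two good
decompositions put together along a straight cut. -/
inductive Good {n : ℕ} : (Fin n → ℝ) → (Fin n → ℝ) → List (Cube n) → Prop
  | cube (a : Fin n → ℝ) (s : ℝ) (hs : 0 < s) : Good a (fun j => a j + s) [⟨a, s⟩]
  | block (a b : Fin n → ℝ) (L : List (Cube n)) (hL : ListTiling a b L)
      (hnum : ∀ Q ∈ L, ∀ r : ℚ, Q.side = r → ¬ ((n + 1 : ℕ) : ℤ) ∣ r.num) : Good a b L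
  | cut (a b : Fin n → ℝ) (i : Fin n) (c : ℝ) (L₁ L₂ : List (Cube n)) (hac : a i < c)
      (hcb : c < b i) : Good a (Function.update b i c) L₁ →
      Good (Function.update a i c) b L₂ → Good a b (L₁ ++ L₂)

theorem good_of_guillotine {n : ℕ} {a b : Fin n → ℝ} {L : List (Cube n)}
    (h : Guillotine a b L) : Good a b L := by
  induction h with
  | cube a s hs => exact Good.cube a s hs
  | cut a b i c L₁ L₂ hac hcb _ _ ih1 ih2 => exact Good.cut a b i c L₁ L₂ hac hcb ih1 ih2

theorem good_in {n : ℕ} {a b : Fin n → ℝ} {L : List (Cube n)} (h : Good a b L) :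
    (∀ Q ∈ L, 0 < Q.side ∧ ∀ j, a j ≤ Q.lower j ∧ Q.lower j + Q.side ≤ b j) := by
  induction h with
  | cube a s hs =>
    intro Q hQ
    rw [List.mem_singleton] at hQ
    subst hQ
    exact ⟨hs, fun j => ⟨le_refl _, le_refl _⟩⟩
  | block a b L hL hnum => exact hL.2.1
  | cut a b i c L₁ L₂ hac hcb _ _ ih1 ih2 =>
    intro Q hQ
    rw [List.mem_append] at hQ
    rcases hQ with hQ | hQ
    · obtain ⟨h1, h2⟩ := ih1 Q hQ
      refine ⟨h1, fun j => ⟨(h2 j).1, (h2 j).2.trans ?_⟩⟩
      by_cases hj : j = i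
      · subst hj; rw [Function.update_self]; exact hcb.le
      · rw [Function.update_of_ne hj]
    · obtain ⟨h1, h2⟩ := ih2 Q hQ
      refine ⟨h1, fun j => ⟨le_trans ?_ (h2 j).1, (h2 j).2⟩⟩
      by_cases hj : j = i
      · subst hj; rw [Function.update_self]; exact hac.le
      · rw [Function.update_of_ne hj]

theorem good_unique {n : ℕ} {a b : Fin n → ℝ} {L : List (Cube n)} (h : Good a b L) :
    (∀ x : Fin n → ℝ, (∀ j, a j ≤ x j ∧ x j < b j) → ∃! i : Fin L.length, (L.get i).Mem x) := by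
  induction h with
  | cube a s hs =>
    intro x hx
    refine ⟨⟨0, by simp⟩, ?_, ?_⟩
    · exact hx
    · rintro ⟨j, hj⟩ _
      apply Fin.ext
      simpa using hj
  | block a b L hL hnum => exact hL.2.2
  | cut a b i c L₁ L₂ hac hcb h1 h2 ih1 ih2 =>
    intro x hx
    by_cases hxc : x i < c
    · refine exu_left L₁ L₂ (fun Q => Q.Mem x) (ih1 x ?_) ?_
      · intro j
        refine ⟨(hx j).1, ?_⟩
        by_cases hj : j = i
        · subst hj; rw [Function.update_self]; exact hxc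
        · rw [Function.update_of_ne hj]; exact (hx j).2
      · intro Q hQ hm
        have := ((good_in h2 Q hQ).2 i).1
        rw [Function.update_self] at this
        exact absurd (this.trans (hm i).1) (not_le.mpr hxc)
    · refine exu_right L₁ L₂ (fun Q => Q.Mem x) (ih2 x ?_) ?_
      · intro j
        refine ⟨?_, (hx j).2⟩
        by_cases hj : j = i
        · subst hj; rw [Function.update_self]; exact not_lt.mp hxc
        · rw [Function.update_of_ne hj]; exact (hx j).1
      · intro Q hQ hm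
        have := ((good_in h1 Q hQ).2 i).2
        rw [Function.update_self] at this
        exact hxc ((hm i).2.trans_le this)

theorem good_lt {n : ℕ} {a b : Fin n → ℝ} {L : List (Cube n)} (h : Good a b L) :
    (∀ j, a j < b j) ∧ L ≠ [] := by
  induction h with
  | cube a s hs => exact ⟨fun j => by simp [hs], by simp⟩
  | block a b L hL hnum =>
    refine ⟨hL.1, fun h0 => ?_⟩
    subst h0
    obtain ⟨i, _⟩ := hL.2.2 a (fun j => ⟨le_refl _, hL.1 j⟩)
    exact i.elim0
  | cut a b i c L₁ L₂ hac hcb _ _ ih1 ih2 =>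
    refine ⟨fun j => ?_, ?_⟩
    · by_cases hj : j = i
      · subst hj; exact hac.trans hcb
      · have := ih1.1 j
        rwa [Function.update_of_ne hj] at this
    · intro h0
      exact ih1.2 (List.append_eq_nil_iff.mp h0).1

theorem good_H {N : ℕ} (H : AddSubgroup ℝ) (M : ℕ)
    (hblock : ∀ z ∈ H, ∃ r : ℚ, z = r ∧ ((N + 1 + 1 : ℕ) : ℤ) ∣ r.num)
    (hsec : ∀ (k : ℕ) (D : Fin N → ℝ) (T : Fin k → Cube N), k ≤ M → (∀ j, 0 < D j) →
      BoxTiling D T → (∀ j, D j ∈ H) → ∀ q, (T q).side ∈ H)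
    {a b : Fin (N + 1) → ℝ} {L : List (Cube (N + 1))} (h : Good a b L)
    (hL : L.length ≤ M) (hQ : ∃ Q ∈ L, Q.side ∈ H) :
    (∀ j, b j - a j ∈ H) ∧ ∀ Q ∈ L, Q.side ∈ H := by
  induction h with
  | cube a s hs =>
    obtain ⟨Q, hQ1, hQ2⟩ := hQ
    rw [List.mem_singleton] at hQ1
    subst hQ1
    refine ⟨fun j => ?_, fun Q' hQ' => ?_⟩
    · have : a j + s - a j = s := by ring
      rw [this]
      exact hQ2
    · rw [List.mem_singleton] at hQ'
      subst hQ'
      exact hQ2
  | block a b L hL' hnum =>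
    exfalso
    obtain ⟨Q, hQ1, hQ2⟩ := hQ
    obtain ⟨r, hr, hd⟩ := hblock _ hQ2
    exact hnum Q hQ1 r hr hd
  | cut a b i c L₁ L₂ hac hcb h1 h2 ih1 ih2 =>
    have hcut : Good a b (L₁ ++ L₂) := Good.cut a b i c L₁ L₂ hac hcb h1 h2
    have hlen : L₁.length + L₂.length ≤ M := by rwa [List.length_append] at hL
    have hA : ∀ l, l ≠ i → b l - a l ∈ H := by
      obtain ⟨Q0, hm, hs⟩ := hQ
      intro l hl
      rcases List.mem_append.mp hm with hm | hm
      · have h3 := (ih1 (by omega) ⟨Q0, hm, hs⟩).1 l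
        rwa [Function.update_of_ne hl] at h3
      · have h3 := (ih2 (by omega) ⟨Q0, hm, hs⟩).1 l
        rwa [Function.update_of_ne hl] at h3
    have hB : ∀ Q ∈ L₁ ++ L₂, Q.side ∈ H := by
      intro Q hQm
      have t1 := good_in hcut
      have t2 := good_unique hcut
      obtain ⟨q, hq⟩ := List.mem_iff_get.mp hQm
      have hbnd : ∀ q : Fin (L₁ ++ L₂).length, 0 < ((L₁ ++ L₂).get q).side ∧
          ∀ j, a j ≤ ((L₁ ++ L₂).get q).lower j ∧
            ((L₁ ++ L₂).get q).lower j + ((L₁ ++ L₂).get q).side ≤ b j :=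
        fun q => t1 _ (List.get_mem _ q)
      have hc : a i ≤ ((L₁ ++ L₂).get q).lower i ∧ ((L₁ ++ L₂).get q).lower i < b i := by
        have h3 := hbnd q
        have h4 := h3.2 i
        exact ⟨h4.1, by linarith [h3.1, h4.2]⟩
      obtain ⟨k', e, hk', htile, hcov⟩ := section_box a b (L₁ ++ L₂).get hbnd t2 i
        (((L₁ ++ L₂).get q).lower i) hc
      obtain ⟨q', hq'⟩ := hcov q ⟨le_rfl, by linarith [(hbnd q).1]⟩
      have h5 := hsec k' _ _ (le_trans hk' hL)
        (fun j => by have := (good_lt hcut).1 (i.succAbove j); linarith) htile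
        (fun j => hA _ (Fin.succAbove_ne i j)) q'
      simp only [hq'] at h5
      rw [← hq]
      exact h5
    refine ⟨?_, hB⟩
    intro j
    by_cases hj : j = i
    · subst hj
      obtain ⟨Q1, hQ1⟩ := List.exists_mem_of_ne_nil _ (good_lt h1).2
      obtain ⟨Q2, hQ2⟩ := List.exists_mem_of_ne_nil _ (good_lt h2).2
      have h3 := (ih1 (by omega) ⟨Q1, hQ1, hB Q1 (List.mem_append_left _ hQ1)⟩).1 j
      have h4 := (ih2 (by omega) ⟨Q2, hQ2, hB Q2 (List.mem_append_right _ hQ2)⟩).1 j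
      rw [Function.update_self] at h3 h4
      have h5 : b j - a j = (c - a j) + (b j - c) := by ring
      rw [h5]
      exact H.add_mem h3 h4
    · exact hA j hj

/-- elements of `pHp p` are rational with reduced numerator divisible by `p` -/
theorem pHp_num (p : ℕ) (hp : p.Prime) (z : ℝ) (h : z ∈ pHp p hp) :
    ∃ r : ℚ, z = r ∧ (p : ℤ) ∣ r.num := by
  rw [mem_pHp] at h
  obtain ⟨y, ⟨a, b, hb, rfl⟩, rfl⟩ := h
  refine ⟨(p : ℚ) * ((a : ℚ) / (b : ℚ)), by push_cast; ring, ?_⟩
  have hb0 : (b : ℚ) ≠ 0 := by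
    intro h
    have : b = 0 := by exact_mod_cast h
    exact hb (this ▸ dvd_zero p)
  obtain ⟨r, hr⟩ : ∃ r : ℚ, r = (p : ℚ) * ((a : ℚ) / (b : ℚ)) := ⟨_, rfl⟩
  rw [← hr]
  have hd0 : (r.den : ℚ) ≠ 0 := by exact_mod_cast r.den_nz
  have h1 : (r.num : ℚ) * b = p * a * r.den := by
    have h2 : (r.num : ℚ) / r.den = (p : ℚ) * ((a : ℚ) / (b : ℚ)) := by
      rw [Rat.num_div_den, hr]
    field_simp at h2
    linarith
  have h2 : r.num * (b : ℤ) = p * a * r.den := by exact_mod_cast h1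
  have hpp : Prime (p : ℤ) := Nat.prime_iff_prime_int.mp hp
  have h3 : (p : ℤ) ∣ r.num * (b : ℤ) := by
    rw [h2]
    exact ⟨a * r.den, by ring⟩
  rcases hpp.dvd_or_dvd h3 with h4 | h4
  · exact h4
  · exact absurd (by exact_mod_cast h4) hb

/-- a good decomposition of the unit cube is a decomposition of the unit cube -/
theorem good_isTiling {n : ℕ} {L : List (Cube n)} (hL : Good (fun _ => 0) (fun _ => 1) L) :
    IsTiling L.get := by
  refine ⟨fun i => ?_, fun x hx => good_unique hL x hx⟩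
  obtain ⟨h3, h4⟩ := good_in hL (L.get i) (List.get_mem L i)
  exact ⟨h3, h4⟩

/-- no side of a good decomposition has a numerator divisible by `n + 1` -/
theorem good_notMem {N K : ℕ} (hK : 1 ≤ K) (hn : 34000 * K ^ 6 ≤ N + 1)
    (L : List (Cube (N + 1))) (hL : Good (fun _ => 0) (fun _ => 1) L)
    (hk : L.length ≤ K ^ (N + 1)) (hp : (N + 1 + 1).Prime) :
    ∀ Q ∈ L, Q.side ∉ pHp (N + 1 + 1) hp := by
  intro Q hQ hside
  have hK6 : 1 ≤ K ^ 6 := Nat.one_le_pow _ _ hK
  have hK2 : K ^ 2 ≤ K ^ 6 := Nat.pow_le_pow_right hK (by norm_num)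
  have hKK : K ≤ K ^ 6 := Nat.le_self_pow (by norm_num) K
  have hKr : (1 : ℝ) ≤ K := by exact_mod_cast hK
  have hN2 : 2 ≤ N := by omega
  have h := good_H (pHp (N + 1 + 1) hp) (K ^ (N + 1)) (fun z hz => pHp_num _ hp z hz)
    (by
      intro k D T hk hD hT hDH
      refine sides_mem_box hN2 D hD T hT (pHp (N + 1 + 1) hp) hDH (2 * K) (by linarith) ?_
        (32 * K ^ 2 + 1) (by push_cast; nlinarith) ?_ ?_
      · have h1 : k ≤ (2 * K) ^ N := by
          calc k ≤ K ^ (N + 1) := hk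
            _ = K * K ^ N := by rw [pow_succ]; ring
            _ ≤ 2 ^ N * K ^ N := by
                apply Nat.mul_le_mul_right
                have : N < 2 ^ N := Nat.lt_two_pow_self
                omega
            _ = (2 * K) ^ N := by rw [mul_pow]
        exact_mod_cast h1
      · have h1 : (34000 : ℝ) * K ^ 6 ≤ N + 1 := by exact_mod_cast hn
        have h2 : (K : ℝ) ^ 4 ≤ K ^ 6 := pow_le_pow_right₀ hKr (by norm_num)
        have h3 : (1 : ℝ) ≤ K ^ 6 := one_le_pow₀ hKr
        push_cast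
        nlinarith
      · intro z m hm hmJ h
        exact pHp_tf _ hp z m hm (by omega) h)
    hL hk ⟨Q, hQ, hside⟩
  have h1 := h.1 0
  simp only [sub_zero] at h1
  exact one_notMem_pHp _ hp h1

/-- **Counting.** -/
theorem good_count {n K : ℕ} (hK : 1 ≤ K) (hn : 34000 * K ^ 6 ≤ n)
    (L : List (Cube n)) (hL : Good (fun _ => 0) (fun _ => 1) L)
    (hk : L.length ≤ K ^ n) (hp : (n + 1).Prime) : L.length ≡ 1 [MOD (n + 1)] := by
  classical
  have hK6 : 1 ≤ K ^ 6 := Nat.one_le_pow _ _ hK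
  have hK2 : K ^ 2 ≤ K ^ 6 := Nat.pow_le_pow_right hK (by norm_num)
  obtain ⟨N, rfl⟩ : ∃ N, n = N + 1 := ⟨n - 1, by omega⟩
  have hT := good_isTiling hL
  have hrat : ∀ i, ∃ r : ℚ, (L.get i).side = r ∧ ¬ ((N + 1 + 1 : ℕ) : ℤ) ∣ r.num := by
    intro i
    obtain ⟨r, hr, hd⟩ := Hp_rat _ hp _ (rigidity hK (by omega) hk L.get hT _ hp (by omega) i)
    refine ⟨r, hr, fun hnum => ?_⟩
    apply good_notMem hK hn L hL hk hp (L.get i) (List.get_mem L i)
    rw [hr]
    exact mem_pHp_of_dvd _ hp r hd hnum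
  choose s hs hnum using hrat
  have h := count_one hK (by omega) hk L.get hT _ hp (by omega) (by simp) s hs
  rw [Finset.filter_true_of_mem (fun q _ => hnum q)] at h
  simpa using h

/-- the unit `n`-cube has a good decomposition into `k` cubes -/
def GoodAdmissible (n k : ℕ) : Prop :=
  ∃ L : List (Cube n), Good (fun _ => 0) (fun _ => 1) L ∧ L.length = k

/-- the cutoff for good decompositions -/
def IsGoodCutoff (n c : ℕ) : Prop :=
  (∀ k, c ≤ k → GoodAdmissible n k) ∧ (c = 0 ∨ ¬GoodAdmissible n (c - 1))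

theorem goodadm_large {n A : ℕ} (hn : 1 ≤ n) (hA : 2 ≤ A) (hg : gg n A = 1) (k : ℕ)
    (hk : (2 * A) ^ n ≤ k) : GoodAdmissible n k := by
  obtain ⟨L, hL, h⟩ := gadm_large hn hA hg k hk
  exact ⟨L, good_of_guillotine hL, h⟩

theorem goodcutoff_le {n A c : ℕ} (hn : 1 ≤ n) (hA : 2 ≤ A) (hg : gg n A = 1)
    (hc : IsGoodCutoff n c) : c ≤ (2 * A) ^ n := by
  by_contra hlt
  rw [not_le] at hlt
  rcases hc.2 with h0 | hna
  · omega
  · exact hna (goodadm_large hn hA hg (c - 1) (by omega))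

theorem goodcutoff_pos {n c : ℕ} (hc : IsGoodCutoff n c) : 1 ≤ c := by
  by_contra h
  have h0 : c = 0 := by omega
  obtain ⟨L, hL, hk⟩ := hc.1 0 (by omega)
  exact (good_lt hL).2 (List.length_eq_zero_iff.mp hk)

/-- the cutoff for good decompositions exists -/
theorem exists_goodcutoff {n : ℕ} (hn : 1 ≤ n) : ∃ c, IsGoodCutoff n c := by
  classical
  obtain ⟨C, hC3, hC⟩ := gg_eq_one
  obtain ⟨A, hA⟩ := exists_nat_gt (max (C * √(n : ℝ)) (max (PP n : ℝ) 2))
  have hA1 : C * √(n : ℝ) < A := lt_of_le_of_lt (le_max_left _ _) hA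
  have hA2 : (PP n : ℝ) < A := lt_of_le_of_lt ((le_max_left _ _).trans (le_max_right _ _)) hA
  have hA3 : (2 : ℝ) < A := lt_of_le_of_lt ((le_max_right _ _).trans (le_max_right _ _)) hA
  have hA2' : PP n ≤ A := by exact_mod_cast hA2.le
  have hA3' : 2 ≤ A := by exact_mod_cast hA3.le
  have hg := hC n hn A hA2' hA1
  have hex : ∃ c : ℕ, ∀ k, c ≤ k → GoodAdmissible n k := ⟨(2 * A) ^ n, fun k hk =>
    goodadm_large hn hA3' hg k hk⟩
  refine ⟨Nat.find hex, Nat.find_spec hex, ?_⟩
  by_cases h0 : Nat.find hex = 0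
  · exact Or.inl h0
  · right
    intro hadm
    refine Nat.find_min hex (m := Nat.find hex - 1) (by omega) ?_
    intro k hk
    rcases Nat.lt_or_ge k (Nat.find hex) with h | h
    · have : k = Nat.find hex - 1 := by omega
      rw [this]
      exact hadm
    · exact Nat.find_spec hex k h

end Pool.Agent.H274C
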