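import Mathlib
import Pool.Prelude.Def_F_cef2bd1b
import Pool.Agent.Helper274.CT.BoxDef
set_option autoImplicit false
open N0a8789b9
namespace Pool.Agent.H274C


theorem exu_left {n : ℕ} (L₁ L₂ : List (Cube n)) (P : Cube n → Prop)
    (h1 : ∃! i : Fin L₁.length, P (L₁.get i)) (h2 : ∀ Q ∈ L₂, ¬ P Q) :
    ∃! i : Fin (L₁ ++ L₂).length, P ((L₁ ++ L₂).get i) := by
  obtain ⟨i, hi, hu⟩ := h1
  refine ⟨⟨i.1, by have := i.2; rw [List.length_append]; omega⟩, ?_, ?_⟩
  · show P ((L₁ ++ L₂)[i.1]'_)
    rw [List.getElem_append_left i.2]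
    exact hi
  · rintro ⟨j, hj⟩ hP
    change P ((L₁ ++ L₂)[j]'_) at hP
    by_cases hjl : j < L₁.length
    · rw [List.getElem_append_left hjl] at hP
      have h3 : (⟨j, hjl⟩ : Fin L₁.length) = i := hu ⟨j, hjl⟩ hP
      have h4 : j = i.1 := congrArg Fin.val h3
      exact Fin.ext h4
    · rw [List.getElem_append_right (by omega)] at hP
      exact absurd hP (h2 _ (List.getElem_mem _))

theorem exu_right {n : ℕ} (L₁ L₂ : List (Cube n)) (P : Cube n → Prop)
    (h1 : ∃! i : Fin L₂.length, P (L₂.get i)) (h2 : ∀ Q ∈ L₁, ¬ P Q) :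
    ∃! i : Fin (L₁ ++ L₂).length, P ((L₁ ++ L₂).get i) := by
  obtain ⟨i, hi, hu⟩ := h1
  refine ⟨⟨L₁.length + i.1, by have := i.2; rw [List.length_append]; omega⟩, ?_, ?_⟩
  · show P ((L₁ ++ L₂)[L₁.length + i.1]'_)
    rw [List.getElem_append_right (by omega)]
    simp only [Nat.add_sub_cancel_left]
    exact hi
  · rintro ⟨j, hj⟩ hP
    change P ((L₁ ++ L₂)[j]'_) at hP
    by_cases hjl : j < L₁.length
    · rw [List.getElem_append_left hjl] at hP
      exact absurd hP (h2 _ (List.getElem_mem _))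
    · rw [List.getElem_append_right (by omega)] at hP
      rw [List.length_append] at hj
      have := hu ⟨j - L₁.length, by omega⟩ hP
      have := congrArg Fin.val this
      simp only at this
      apply Fin.ext
      show j = L₁.length + i.1
      omega

theorem guillotine_in {n : ℕ} {a b : Fin n → ℝ} {L : List (Cube n)} (h : Guillotine a b L) :
    (∀ Q ∈ L, 0 < Q.side ∧ ∀ j, a j ≤ Q.lower j ∧ Q.lower j + Q.side ≤ b j) := by
  induction h with
  | cube a s hs =>
    intro Q hQ
    rw [List.mem_singleton] at hQ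
    subst hQ
    exact ⟨hs, fun j => ⟨le_refl _, le_refl _⟩⟩
  | cut a b i c L₁ L₂ hac hcb _ _ ih1 ih2 =>
    intro Q hQ
    rw [List.mem_append] at hQ
    rcases hQ with hQ | hQ
    · obtain ⟨h1, h2⟩ := ih1 Q hQ
      refine ⟨h1, fun j => ⟨(h2 j).1, (h2 j).2.trans ?_⟩⟩
      by_cases hj : j = i
      · subst hj; rw [Function.update_self]; exact hcb.le
      · rw [Function.update_of_ne hj]
    · obtain ⟨h1, h2⟩ := ih2 Q hQ
      refine ⟨h1, fun j => ⟨le_trans ?_ (h2 j).1, (h2 j).2⟩⟩
      by_cases hj : j = i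
      · subst hj; rw [Function.update_self]; exact hac.le
      · rw [Function.update_of_ne hj]

theorem guillotine_tiling {n : ℕ} {a b : Fin n → ℝ} {L : List (Cube n)} (h : Guillotine a b L) :
    (∀ Q ∈ L, 0 < Q.side ∧ ∀ j, a j ≤ Q.lower j ∧ Q.lower j + Q.side ≤ b j) ∧
    (∀ x : Fin n → ℝ, (∀ j, a j ≤ x j ∧ x j < b j) → ∃! i : Fin L.length, (L.get i).Mem x) := by
  refine ⟨guillotine_in h, ?_⟩
  induction h with
  | cube a s hs =>
    intro x hx
    refine ⟨⟨0, by simp⟩, ?_, ?_⟩
    · exact hx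
    · rintro ⟨j, hj⟩ _
      apply Fin.ext
      simpa using hj
  | cut a b i c L₁ L₂ hac hcb h1 h2 ih1 ih2 =>
    intro x hx
    by_cases hxc : x i < c
    · refine exu_left L₁ L₂ (fun Q => Q.Mem x) (ih1 x ?_) ?_
      · intro j
        refine ⟨(hx j).1, ?_⟩
        by_cases hj : j = i
        · subst hj; rw [Function.update_self]; exact hxc
        · rw [Function.update_of_ne hj]; exact (hx j).2
      · intro Q hQ hm
        have := ((guillotine_in h2 Q hQ).2 i).1
        rw [Function.update_self] at this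
        exact absurd (this.trans (hm i).1) (not_le.mpr hxc)
    · refine exu_right L₁ L₂ (fun Q => Q.Mem x) (ih2 x ?_) ?_
      · intro j
        refine ⟨?_, (hx j).2⟩
        by_cases hj : j = i
        · subst hj; rw [Function.update_self]; exact not_lt.mp hxc
        · rw [Function.update_of_ne hj]; exact (hx j).1
      · intro Q hQ hm
        have := ((guillotine_in h1 Q hQ).2 i).2
        rw [Function.update_self] at this
        exact hxc ((hm i).2.trans_le this)


theorem guillotine_lt {n : ℕ} {a b : Fin n → ℝ} {L : List (Cube n)} (h : Guillotine a b L) :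
    (∀ j, a j < b j) ∧ L ≠ [] := by
  induction h with
  | cube a s hs => exact ⟨fun j => by simp [hs], by simp⟩
  | cut a b i c L₁ L₂ hac hcb _ _ ih1 ih2 =>
    refine ⟨fun j => ?_, ?_⟩
    · by_cases hj : j = i
      · subst hj; exact hac.trans hcb
      · have := ih1.1 j
        rwa [Function.update_of_ne hj] at this
    · intro h0
      exact ih1.2 (List.append_eq_nil_iff.mp h0).1


end Pool.Agent.H274C
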