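import Mathlib
import Pool.Prelude.Def_F_cef2bd1b
import Pool.Agent.H17HN.Tiling

set_option autoImplicit false

/-!
Cube tilings in which no side is a rational number with reduced numerator above `n`.
-/

open Finset N0a8789b9 Pool.Agent.H17HN

namespace Pool.Agent.H274C

/-- a decomposition of the unit `n`-cube into `k` cubes, none of whose sides is a rational number
with reduced numerator larger than `n` -/
def AdmissibleN (n k : ℕ) : Prop :=
  ∃ tiles : Fin k → Cube n, IsTiling tiles ∧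
    ∀ i, ∃ r : ℚ, (tiles i).side = r ∧ r.num ≤ n

def IsCutoffN (n c : ℕ) : Prop :=
  (∀ k, c ≤ k → AdmissibleN n k) ∧ (c = 0 ∨ ¬AdmissibleN n (c - 1))

theorem admN_of_fintype {n : ℕ} (ι : Type) [Fintype ι] (T : ι → Cube n)
    (h1 : ∀ i, (T i).InsideUnit) (h2 : ∀ x, InUnit x → ∃! i, (T i).Mem x)
    (h3 : ∀ i, ∃ r : ℚ, (T i).side = r ∧ r.num ≤ n) :
    AdmissibleN n (Fintype.card ι) := by
  refine ⟨fun i => T ((Fintype.equivFin ι).symm i), ⟨fun i => h1 _, fun x hx => ?_⟩,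
    fun i => h3 _⟩
  obtain ⟨i, hi, hu⟩ := h2 x hx
  refine ⟨Fintype.equivFin ι i, ?_, ?_⟩
  · simpa using hi
  · intro j hj
    have := hu _ hj
    rw [← this]
    simp

theorem admN_one {n : ℕ} (hn : 1 ≤ n) : AdmissibleN n 1 := by
  refine ⟨fun _ => ⟨fun _ => 0, 1⟩, ⟨fun _ => ⟨one_pos, fun _ => by simp⟩, fun x hx => ?_⟩,
    fun _ => ⟨1, by simp, by simpa using hn⟩⟩
  refine ⟨0, ?_, fun j _ => Subsingleton.elim _ _⟩
  intro j
  have := hx j
  simpa using this

/-- dividing a positive rational by a positive integer does not increase the numerator -/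
theorem num_div_le (r : ℚ) (hr : 0 < r) (a : ℕ) (ha : 1 ≤ a) : (r / a).num ≤ r.num := by
  have ha0 : (a : ℚ) ≠ 0 := by positivity
  have h1 : (r / a).num ∣ r.num := by
    have h2 : r / a = Rat.divInt r.num (r.den * a) := by
      rw [Rat.divInt_eq_div]
      push_cast
      conv_lhs => rw [← Rat.num_div_den r]
      rw [div_div]
    rw [h2]
    exact Rat.num_dvd _ (by
      have := r.den_nz
      positivity)
  exact Int.le_of_dvd (Rat.num_pos.mpr hr) h1

theorem admN_subdivide {n k : ℕ} (a : ℕ) (ha : 1 ≤ a) (h : AdmissibleN n (k + 1)) :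
    AdmissibleN n (k + 1 + (a ^ n - 1)) := by
  obtain ⟨T, ⟨hT1, hT2⟩, hT3⟩ := h
  have hcard : Fintype.card (Fin k ⊕ (Fin n → Fin a)) = k + 1 + (a ^ n - 1) := by
    rw [Fintype.card_sum, Fintype.card_fin, Fintype.card_fun, Fintype.card_fin, Fintype.card_fin]
    have : 1 ≤ a ^ n := Nat.one_le_pow _ _ ha
    omega
  rw [← hcard]
  set Q := T (Fin.last k) with hQdef
  have hQ : Q.InsideUnit := hT1 _
  refine admN_of_fintype (Fin k ⊕ (Fin n → Fin a))
    (Sum.elim (fun i => T i.castSucc) (fun v => sub Q a v)) ?_ ?_ ?_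
  · rintro (i | v)
    · exact hT1 _
    · exact sub_inside Q hQ a ha v
  · intro x hx
    obtain ⟨i, hi, hu⟩ := hT2 x hx
    rcases Fin.eq_castSucc_or_eq_last i with ⟨i', rfl⟩ | rfl
    · refine ⟨Sum.inl i', hi, ?_⟩
      rintro (j | v) hj
      · have := hu j.castSucc hj
        rw [Fin.castSucc_inj] at this
        rw [this]
      · exfalso
        have h1 := hu (Fin.last k) (mem_of_sub_mem Q hQ a ha v x hj)
        exact absurd h1 (Fin.castSucc_lt_last i').ne'
    · obtain ⟨v, hv⟩ := exists_sub_mem Q hQ a ha x hi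
      refine ⟨Sum.inr v, hv, ?_⟩
      rintro (j | w) hj
      · exfalso
        have h1 := hu j.castSucc hj
        exact absurd h1 (Fin.castSucc_lt_last j).ne
      · have : w = v := sub_unique Q hQ a ha x w v hj hv
        rw [this]
  · rintro (i | v)
    · exact hT3 _
    · obtain ⟨r, hr, hrn⟩ := hT3 (Fin.last k)
      have hr0 : 0 < r := by
        have := hQ.1
        rw [hQdef, hr] at this
        exact_mod_cast this
      refine ⟨r / a, ?_, ?_⟩
      · simp only [Sum.elim_inr, sub]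
        rw [hQdef, hr]
        push_cast
        rfl
      · exact le_trans (num_div_le r hr0 a ha) hrn

theorem admN_of_mem {n A : ℕ} (g : ℕ) (hg : g ∈ AddSubmonoid.closure (gens n A)) :
    ∀ k : ℕ, AdmissibleN n (k + 1) → AdmissibleN n (k + 1 + g) := by
  induction hg using AddSubmonoid.closure_induction with
  | mem s hs =>
    obtain ⟨a, ha, _, rfl⟩ := hs
    intro k hk
    exact admN_subdivide a (by omega) hk
  | zero => intro k hk; exact hk
  | add x y _ _ hx hy =>
    intro k hk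
    have h1 := hx k hk
    have h2 : k + 1 + x = (k + x) + 1 := by ring
    rw [h2] at h1
    have h3 := hy (k + x) h1
    have h4 : k + x + 1 + y = k + 1 + (x + y) := by ring
    rwa [h4] at h3

theorem admN_large {n A : ℕ} (hn : 1 ≤ n) (hA : 2 ≤ A) (hg : gg n A = 1) (k : ℕ)
    (hk : (2 * A) ^ n ≤ k) : AdmissibleN n k := by
  have hgcd : Nat.setGcd (gens n A) = 1 := by
    apply Nat.dvd_one.mp
    rw [← hg]
    unfold gg
    rw [Finset.dvd_gcd_iff]
    intro a ha
    rw [Finset.mem_Icc] at ha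
    exact Nat.setGcd_dvd_of_mem ⟨a, ha.1, ha.2, rfl⟩
  have h2n : 2 ≤ 2 ^ n := by
    calc 2 = 2 ^ 1 := by norm_num
      _ ≤ 2 ^ n := Nat.pow_le_pow_right (by norm_num) hn
  have hAn : 1 ≤ A ^ n := Nat.one_le_pow _ _ (by omega)
  have hmem : ∀ N, (2 ^ n - 1) * (A ^ n - 1) ≤ N → N ∈ AddSubmonoid.closure (gens n A) := by
    intro N hN
    refine frob_bound hgcd (m := 2 ^ n - 1) (M := A ^ n - 1) (by omega) ⟨2, le_refl _, hA, rfl⟩ ?_ N hN
    rintro s ⟨a, _, haA, rfl⟩
    exact Nat.sub_le_sub_right (Nat.pow_le_pow_left haA n) 1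
  have h1 : (2 ^ n - 1) * (A ^ n - 1) + 1 ≤ (2 * A) ^ n := by
    rw [mul_pow]
    obtain ⟨u, hu⟩ : ∃ u, 2 ^ n = u + 1 := ⟨2 ^ n - 1, by omega⟩
    obtain ⟨w, hw⟩ : ∃ w, A ^ n = w + 1 := ⟨A ^ n - 1, by omega⟩
    rw [hu, hw]
    simp only [Nat.add_sub_cancel]
    nlinarith
  have hb : (2 ^ n - 1) * (A ^ n - 1) ≤ k - 1 := by omega
  have h2 := admN_of_mem (k - 1) (hmem _ hb) 0 (by simpa using admN_one hn)
  have hpos : 1 ≤ (2 * A) ^ n := Nat.one_le_pow _ _ (by omega)
  have h3 : 0 + 1 + (k - 1) = k := by omega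
  rwa [h3] at h2

theorem cutoffN_le {n A c : ℕ} (hn : 1 ≤ n) (hA : 2 ≤ A) (hg : gg n A = 1)
    (hc : IsCutoffN n c) : c ≤ (2 * A) ^ n := by
  by_contra hlt
  rw [not_le] at hlt
  rcases hc.2 with h0 | hna
  · omega
  · exact hna (admN_large hn hA hg (c - 1) (by omega))

theorem cutoffN_pos {n c : ℕ} (hc : IsCutoffN n c) : 1 ≤ c := by
  by_contra h
  have h0 : c = 0 := by omega
  obtain ⟨T, ⟨_, h2⟩, _⟩ := hc.1 0 (by omega)
  obtain ⟨i, _⟩ := h2 (fun _ => 0) (fun _ => ⟨le_refl _, one_pos⟩)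
  exact i.elim0

/-- the cutoff exists -/
theorem exists_cutoffN {n : ℕ} (hn : 1 ≤ n) : ∃ c, IsCutoffN n c := by
  classical
  obtain ⟨C, hC3, hC⟩ := gg_eq_one
  obtain ⟨A, hA⟩ := exists_nat_gt (max (C * √(n : ℝ)) (max (PP n : ℝ) 2))
  have hA1 : C * √(n : ℝ) < A := lt_of_le_of_lt (le_max_left _ _) hA
  have hA2 : (PP n : ℝ) < A := lt_of_le_of_lt ((le_max_left _ _).trans (le_max_right _ _)) hA
  have hA3 : (2 : ℝ) < A := lt_of_le_of_lt ((le_max_right _ _).trans (le_max_right _ _)) hA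
  have hA2' : PP n ≤ A := by exact_mod_cast hA2.le
  have hA3' : 2 ≤ A := by exact_mod_cast hA3.le
  have hg := hC n hn A hA2' hA1
  have hex : ∃ c : ℕ, ∀ k, c ≤ k → AdmissibleN n k := ⟨(2 * A) ^ n, fun k hk =>
    admN_large hn hA3' hg k hk⟩
  refine ⟨Nat.find hex, Nat.find_spec hex, ?_⟩
  by_cases h0 : Nat.find hex = 0
  · exact Or.inl h0
  · right
    intro hadm
    refine Nat.find_min hex (m := Nat.find hex - 1) (by omega) ?_
    intro k hk
    rcases Nat.lt_or_ge k (Nat.find hex) with h | h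
    · have : k = Nat.find hex - 1 := by omega
      rw [this]
      exact hadm
    · exact Nat.find_spec hex k h

end Pool.Agent.H274C
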